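import Mathlib

set_option autoImplicit false

/-!
# Uniform measure on the unit ball of a finite-dimensional normed space
-/

open MeasureTheory Metric Set Module

namespace Pool.Agent.Helper31.L1

section
variable (E : Type*) [NormedAddCommGroup E] [NormedSpace ℝ E] [FiniteDimensional ℝ E]
  [MeasurableSpace E] [BorelSpace E]

/-- the uniform probability measure on the closed unit ball -/
noncomputable def unif : Measure E :=
  ((Measure.addHaar : Measure E) (closedBall (0 : E) 1))⁻¹ •
    (Measure.addHaar : Measure E).restrict (closedBall (0 : E) 1)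

variable {E}

lemma ball_pos : 0 < (Measure.addHaar : Measure E) (closedBall (0 : E) 1) :=
  measure_closedBall_pos _ _ one_pos

lemma ball_lt_top : (Measure.addHaar : Measure E) (closedBall (0 : E) 1) < ⊤ :=
  measure_closedBall_lt_top

instance : IsProbabilityMeasure (unif E) := by
  constructor
  rw [unif, Measure.smul_apply, Measure.restrict_apply_univ, smul_eq_mul]
  exact ENNReal.inv_mul_cancel ball_pos.ne' ball_lt_top.ne

lemma unif_apply (s : Set E) : unif E s =
    ((Measure.addHaar : Measure E) (closedBall (0 : E) 1))⁻¹ *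
      (Measure.addHaar : Measure E) (s ∩ closedBall (0 : E) 1) := by
  rw [unif, Measure.smul_apply, Measure.restrict_apply' measurableSet_closedBall, smul_eq_mul]

lemma unif_ball : ∀ᵐ k ∂(unif E), ‖k‖ ≤ 1 := by
  rw [ae_iff, unif_apply]
  have : {a : E | ¬‖a‖ ≤ 1} ∩ closedBall 0 1 = ∅ := by
    ext x
    simp
  rw [this, measure_empty, mul_zero]

/-- symmetry -/
lemma unif_neg : Measure.map (fun x : E => -x) (unif E) = unif E := by
  ext s hs
  rw [Measure.map_apply measurable_neg hs, unif_apply, unif_apply]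
  congr 1
  have h1 : (fun x : E => -x) ⁻¹' s ∩ closedBall 0 1 = (fun x : E => -x) ⁻¹' (s ∩ closedBall 0 1) := by
    ext x
    simp
  rw [h1]
  have h2 := Measure.addHaar_preimage_smul (Measure.addHaar : Measure E)
    (r := (-1 : ℝ)) (by norm_num) (s ∩ closedBall 0 1)
  have h3 : (fun x : E => (-1 : ℝ) • x) = fun x : E => -x := by
    ext x; simp
  rw [h3] at h2
  rw [h2]
  simp

lemma unif_mp_neg : MeasurePreserving (fun x : E => -x) (unif E) (unif E) :=
  ⟨measurable_neg, unif_neg⟩

lemma integral_neg' (F : E → ℝ) : ∫ k, F (-k) ∂(unif E) = ∫ k, F k ∂(unif E) :=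
  unif_mp_neg.integral_comp (Homeomorph.neg E).measurableEmbedding F

/-- homotheties with centre in the ball -/
lemma unif_homothety {y : E} (hy : ‖y‖ ≤ 1) {l : ℝ} (hl0 : 0 ≤ l) (hl1 : l ≤ 1) {G A : Set E}
    (hG : G ⊆ closedBall 0 1) (hA : ∀ k ∈ G, l • y + (1 - l) • k ∈ A) :
    (1 - l) ^ finrank ℝ E * (unif E).real G ≤ (unif E).real A := by
  have h1 := Measure.addHaar_image_homothety (Measure.addHaar : Measure E) y (1 - l) G
  have h2 : (AffineMap.homothety y (1 - l)) '' G ⊆ A ∩ closedBall 0 1 := by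
    rintro _ ⟨k, hk, rfl⟩
    have e : (AffineMap.homothety y (1 - l)) k = l • y + (1 - l) • k := by
      rw [AffineMap.homothety_apply, vsub_eq_sub, vadd_eq_add]
      module
    rw [e]
    refine ⟨hA k hk, ?_⟩
    have hk1 : ‖k‖ ≤ 1 := by simpa using hG hk
    rw [mem_closedBall, dist_zero_right]
    calc ‖l • y + (1 - l) • k‖ ≤ ‖l • y‖ + ‖(1 - l) • k‖ := norm_add_le _ _
      _ = l * ‖y‖ + (1 - l) * ‖k‖ := by
        rw [norm_smul, norm_smul, Real.norm_of_nonneg hl0, Real.norm_of_nonneg (by linarith)]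
      _ ≤ 1 := by nlinarith
  have h3 := measure_mono h2 (μ := (Measure.addHaar : Measure E))
  rw [h1] at h3
  rw [measureReal_def, measureReal_def, unif_apply, unif_apply, inter_eq_left.mpr hG]
  have hpow : 0 ≤ (1 - l) ^ finrank ℝ E := pow_nonneg (by linarith) _
  rw [abs_of_nonneg hpow] at h3
  have hfin : (Measure.addHaar : Measure E) (A ∩ closedBall 0 1) ≠ ⊤ :=
    ((measure_mono inter_subset_right).trans_lt ball_lt_top).ne
  rw [ENNReal.toReal_mul, ENNReal.toReal_mul]
  have h4 := ENNReal.toReal_mono hfin h3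
  rw [ENNReal.toReal_mul, ENNReal.toReal_ofReal hpow] at h4
  have h5 : 0 ≤ (((Measure.addHaar : Measure E) (closedBall (0 : E) 1))⁻¹).toReal :=
    ENNReal.toReal_nonneg
  nlinarith [mul_le_mul_of_nonneg_left h4 h5]

end

end Pool.Agent.Helper31.L1
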