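import Pool.Agent.Helper31.L1.Main

set_option autoImplicit false
set_option linter.unusedSectionVars false

open MeasureTheory Metric Set Module

namespace Pool.Agent.Helper31.L1

/-- the greedy algorithm -/
lemma greedy {E J : Type*} [Fintype J] (A : E → Set J) (p : ℝ) (hp1 : p ≤ 1)
    (h : ∀ τ : J → ℝ, (∀ j, 0 ≤ τ j) → ∃ x, p * ∑ j, τ j ≤ ∑ j, (A x).indicator τ j) (N : ℕ) :
    ∃ T : Finset E, T.card ≤ N ∧
      ∑ j, ({j | ∀ x ∈ T, j ∉ A x}).indicator (fun _ => (1 : ℝ)) j ≤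
        (1 - p) ^ N * Fintype.card J := by
  classical
  induction N with
  | zero =>
    refine ⟨∅, by simp, ?_⟩
    simp
  | succ N ih =>
    obtain ⟨T, hT, hT2⟩ := ih
    set R : Set J := {j | ∀ x ∈ T, j ∉ A x} with hR
    obtain ⟨x, hx⟩ := h (R.indicator fun _ => (1 : ℝ))
      (fun j => Set.indicator_nonneg (fun _ _ => zero_le_one) j)
    refine ⟨insert x T, (Finset.card_insert_le _ _).trans (by omega), ?_⟩
    have h1 : ∀ j, ({j | ∀ y ∈ insert x T, j ∉ A y}).indicator (fun _ => (1 : ℝ)) j =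
        R.indicator (fun _ => (1 : ℝ)) j - (A x).indicator (R.indicator fun _ => (1 : ℝ)) j := by
      intro j
      by_cases hjR : j ∈ R
      · by_cases hjA : j ∈ A x
        · rw [Set.indicator_of_notMem, Set.indicator_of_mem hjR, Set.indicator_of_mem hjA,
            Set.indicator_of_mem hjR, sub_self]
          intro hj
          exact hj x (Finset.mem_insert_self _ _) hjA
        · rw [Set.indicator_of_mem, Set.indicator_of_mem hjR, Set.indicator_of_notMem hjA, sub_zero]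
          intro y hy
          rcases Finset.mem_insert.mp hy with rfl | hy
          · exact hjA
          · exact hjR y hy
      · have h2 : j ∉ {j | ∀ y ∈ insert x T, j ∉ A y} := fun hj =>
          hjR fun y hy => hj y (Finset.mem_insert_of_mem hy)
        rw [Set.indicator_of_notMem h2, Set.indicator_of_notMem hjR]
        by_cases hjA : j ∈ A x
        · rw [Set.indicator_of_mem hjA, Set.indicator_of_notMem hjR, sub_zero]
        · rw [Set.indicator_of_notMem hjA, sub_zero]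
    rw [Finset.sum_congr rfl fun j _ => h1 j, Finset.sum_sub_distrib]
    have h3 : 0 ≤ 1 - p := by linarith
    calc ∑ j, R.indicator (fun _ => (1 : ℝ)) j -
          ∑ j, (A x).indicator (R.indicator fun _ => (1 : ℝ)) j
        ≤ (1 - p) * ∑ j, R.indicator (fun _ => (1 : ℝ)) j := by linarith
      _ ≤ (1 - p) * ((1 - p) ^ N * Fintype.card J) := by gcongr
      _ = (1 - p) ^ (N + 1) * Fintype.card J := by ring

/-- covering all of a finite set -/
lemma cover_finite {E J : Type*} [Fintype J] [Nonempty J] (A : E → Set J) (p : ℝ) (hp0 : 0 < p)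
    (hp1 : p ≤ 1)
    (h : ∀ τ : J → ℝ, (∀ j, 0 ≤ τ j) → ∃ x, p * ∑ j, τ j ≤ ∑ j, (A x).indicator τ j) :
    ∃ T : Finset E, (T.card : ℝ) ≤ Real.log (Fintype.card J) / p + 1 ∧ ∀ j, ∃ x ∈ T, j ∈ A x := by
  classical
  have hJ : (0 : ℝ) < Fintype.card J := by exact_mod_cast Fintype.card_pos
  have hJ1 : (1 : ℝ) ≤ Fintype.card J := by exact_mod_cast Fintype.card_pos
  set c := Real.log (Fintype.card J) / p with hc
  have hc0 : 0 ≤ c := div_nonneg (Real.log_nonneg hJ1) hp0.le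
  set N := ⌊c⌋₊ + 1 with hN
  have hN1 : (N : ℝ) ≤ c + 1 := by
    rw [hN]
    push_cast
    linarith [Nat.floor_le hc0]
  have hN2 : c < N := by
    rw [hN]
    push_cast
    exact Nat.lt_floor_add_one c
  obtain ⟨T, hT, hT2⟩ := greedy A p hp1 h N
  refine ⟨T, le_trans (by exact_mod_cast hT) hN1, ?_⟩
  by_contra hcon
  push Not at hcon
  obtain ⟨j₀, hj₀⟩ := hcon
  have h1 : (1 : ℝ) ≤ ∑ j, ({j | ∀ x ∈ T, j ∉ A x}).indicator (fun _ => (1 : ℝ)) j := by
    calc (1 : ℝ) = ({j | ∀ x ∈ T, j ∉ A x}).indicator (fun _ => (1 : ℝ)) j₀ := by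
          rw [Set.indicator_of_mem (show j₀ ∈ {j | ∀ x ∈ T, j ∉ A x} from hj₀)]
      _ ≤ _ := Finset.single_le_sum
          (f := fun j => ({j | ∀ x ∈ T, j ∉ A x}).indicator (fun _ => (1 : ℝ)) j)
          (fun j _ => Set.indicator_nonneg (fun _ _ => zero_le_one) j) (Finset.mem_univ j₀)
  have h2 : (1 - p) ^ N * (Fintype.card J : ℝ) < 1 := by
    have h3 : (1 - p) ^ N ≤ Real.exp (-(p * N)) := by
      have h4 : 1 - p ≤ Real.exp (-p) := by
        have := Real.add_one_le_exp (-p)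
        linarith
      calc (1 - p) ^ N ≤ Real.exp (-p) ^ N := pow_le_pow_left₀ (by linarith) h4 N
        _ = Real.exp (-(p * N)) := by
          rw [← Real.exp_nat_mul]
          congr 1
          ring
    have h5 : Real.exp (-(p * N)) < Real.exp (-(Real.log (Fintype.card J))) := by
      apply Real.exp_lt_exp.mpr
      have : Real.log (Fintype.card J) = p * c := by
        rw [hc]; field_simp
      rw [this]
      nlinarith
    rw [Real.exp_neg (Real.log _), Real.exp_log hJ] at h5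
    calc (1 - p) ^ N * (Fintype.card J : ℝ) ≤ Real.exp (-(p * N)) * Fintype.card J := by gcongr
      _ < (Fintype.card J : ℝ)⁻¹ * Fintype.card J := by gcongr
      _ = 1 := by field_simp
  linarith

/-- finite nets -/
lemma exists_net {E : Type*} [NormedAddCommGroup E] [NormedSpace ℝ E] [FiniteDimensional ℝ E]
    (K : Set E) (hK : ∀ x ∈ K, ‖x‖ ≤ 2) {δ : ℝ} (hδ0 : 0 < δ) :
    ∃ Y : Finset E, (∀ y ∈ Y, y ∈ K) ∧ (∀ x ∈ K, ∃ y ∈ Y, ‖x - y‖ ≤ δ) ∧
      (Y.card : ℝ) ≤ (1 + 4 / δ) ^ finrank ℝ E := by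
  classical
  let _ : MeasurableSpace E := borel E
  have : BorelSpace E := ⟨rfl⟩
  set μ : Measure E := Measure.addHaar with hμ
  have hb0 : 0 < (μ (ball (0 : E) 1)).toReal :=
    ENNReal.toReal_pos (measure_ball_pos μ _ one_pos).ne' measure_ball_lt_top.ne
  -- separated sets are small
  have hsep : ∀ Y : Finset E, (∀ y ∈ Y, y ∈ K) → (∀ y ∈ Y, ∀ z ∈ Y, y ≠ z → δ < ‖y - z‖) →
      (Y.card : ℝ) ≤ (1 + 4 / δ) ^ finrank ℝ E := by
    intro Y hY hYs
    have h1 : (⋃ y ∈ Y, ball y (δ / 2)) ⊆ ball (0 : E) (2 + δ / 2) := by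
      intro x hx
      simp only [mem_iUnion] at hx
      obtain ⟨y, hy, hxy⟩ := hx
      rw [mem_ball, dist_eq_norm] at hxy
      rw [mem_ball, dist_zero_right]
      have := hK y (hY y hy)
      calc ‖x‖ = ‖(x - y) + y‖ := by congr 1; abel
        _ ≤ ‖x - y‖ + ‖y‖ := norm_add_le _ _
        _ < 2 + δ / 2 := by linarith
    have hdisj : (Y : Set E).PairwiseDisjoint (fun y => ball y (δ / 2)) := by
      intro y hy z hz hyz
      refine Set.disjoint_left.mpr fun x hx1 hx2 => ?_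
      rw [mem_ball, dist_eq_norm] at hx1 hx2
      have h3 := hYs y hy z hz hyz
      have h4 : ‖y - z‖ ≤ ‖x - y‖ + ‖x - z‖ := by
        calc ‖y - z‖ = ‖(x - z) - (x - y)‖ := by congr 1; abel
          _ ≤ ‖x - z‖ + ‖x - y‖ := norm_sub_le _ _
          _ = _ := add_comm _ _
      linarith
    have h2 : μ (⋃ y ∈ Y, ball y (δ / 2)) = ∑ y ∈ Y, μ (ball y (δ / 2)) :=
      measure_biUnion_finset hdisj fun y _ => measurableSet_ball
    have h3 : ∀ y : E, μ (ball y (δ / 2)) =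
        ENNReal.ofReal ((δ / 2) ^ finrank ℝ E) * μ (ball 0 1) := fun y =>
      Measure.addHaar_ball_of_pos μ y (by positivity)
    have h4 : μ (ball (0 : E) (2 + δ / 2)) =
        ENNReal.ofReal ((2 + δ / 2) ^ finrank ℝ E) * μ (ball 0 1) :=
      Measure.addHaar_ball_of_pos μ 0 (by positivity)
    have h5 := measure_mono h1 (μ := μ)
    rw [h2, h4, Finset.sum_congr rfl fun y _ => h3 y, Finset.sum_const, nsmul_eq_mul] at h5
    have hfin : ENNReal.ofReal ((2 + δ / 2) ^ finrank ℝ E) * μ (ball (0 : E) 1) ≠ ⊤ :=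
      ENNReal.mul_ne_top ENNReal.ofReal_ne_top measure_ball_lt_top.ne
    have h6 := ENNReal.toReal_mono hfin h5
    rw [ENNReal.toReal_mul, ENNReal.toReal_mul, ENNReal.toReal_mul,
      ENNReal.toReal_ofReal (by positivity), ENNReal.toReal_ofReal (by positivity),
      ENNReal.toReal_natCast, ← mul_assoc] at h6
    have h7 := le_of_mul_le_mul_right h6 hb0
    have h8 : (1 + 4 / δ) ^ finrank ℝ E = (2 + δ / 2) ^ finrank ℝ E / (δ / 2) ^ finrank ℝ E := by
      rw [← div_pow]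
      congr 1
      field_simp
      ring
    rw [h8, le_div_iff₀ (by positivity)]
    exact h7
  -- a separated set of maximal size
  set P : ℕ → Prop := fun n => ∃ Y : Finset E, (∀ y ∈ Y, y ∈ K) ∧
    (∀ y ∈ Y, ∀ z ∈ Y, y ≠ z → δ < ‖y - z‖) ∧ Y.card = n with hP
  have hbd : ∀ n, P n → n ≤ ⌊(1 + 4 / δ) ^ finrank ℝ E⌋₊ := by
    rintro n ⟨Y, h1, h2, h3⟩
    rw [← h3]
    exact Nat.le_floor (hsep Y h1 h2)
  have hP0 : P 0 := ⟨∅, by simp, by simp, by simp⟩
  obtain ⟨Y, hY1, hY2, hY3⟩ : P (Nat.findGreatest P ⌊(1 + 4 / δ) ^ finrank ℝ E⌋₊) :=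
    Nat.findGreatest_spec (Nat.zero_le _) hP0
  refine ⟨Y, hY1, ?_, hsep Y hY1 hY2⟩
  intro x hx
  by_contra hcon
  push Not at hcon
  have hxY : x ∉ Y := by
    intro hxY
    have := hcon x hxY
    simp at this
    linarith
  have hP1 : P (Y.card + 1) := by
    refine ⟨insert x Y, ?_, ?_, Finset.card_insert_of_notMem hxY⟩
    · intro y hy
      rcases Finset.mem_insert.mp hy with rfl | hy
      · exact hx
      · exact hY1 y hy
    · intro y hy z hz hyz
      rcases Finset.mem_insert.mp hy with hy1 | hy1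
      · rcases Finset.mem_insert.mp hz with hz1 | hz1
        · exact absurd (hy1.trans hz1.symm) hyz
        · rw [hy1]
          exact hcon z hz1
      · rcases Finset.mem_insert.mp hz with hz1 | hz1
        · rw [norm_sub_rev, hz1]
          exact hcon y hy1
        · exact hY2 y hy1 z hz1 hyz
  have h9 := Nat.le_findGreatest (hbd _ hP1) hP1
  rw [hY3] at h9
  omega

universe u

variable {Ω : Type*} [MeasurableSpace Ω] {X : Type*} [NormedAddCommGroup X] [NormedSpace ℝ X]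
variable {ν : Measure Ω} [SFinite ν]

/-- the number of translates -/
noncomputable def bound (ε β b : ℝ) (n : ℕ) : ℝ :=
  23 * ((n : ℝ) + 1) ^ 2 * b ^ n / β * (n * Real.log (1 + 12 / dd (ε * β) n)) + 1

/-- **Covering theorem**, in the normed space. -/
theorem cover_space {θ ε β b : ℝ} (hθ0 : 0 ≤ θ) (hθ1 : θ ≤ 1) (hε0 : 0 < ε) (hε1 : ε ≤ 1)
    (hX : Flat X θ ε) (hβ : 1 / 2 ≤ β) (hβ1 : β ≤ 1) (hB : Base θ β b)
    (E : Type u) [NormedAddCommGroup E] [NormedSpace ℝ E] [FiniteDimensional ℝ E]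
    (L : Ω → E →ₗ[ℝ] X) (ℓ : E →ₗ[ℝ] ℝ) (hL : Rep ν L) (hℓ : ∀ x, |ℓ x| ≤ (1 - β) * ‖x‖) :
    ∃ T : Finset E, (T.card : ℝ) ≤ bound ε β b (finrank ℝ E) ∧
      ∀ y : E, ‖y‖ + ℓ y ≤ 1 → ∃ x ∈ T, ‖y - x‖ + ℓ (y - x) < 1 := by
  classical
  set n := finrank ℝ E with hn
  have hβ0 : 0 < β := by linarith
  have hεβ0 : 0 < ε * β := by positivity
  have hεβ1 : ε * β ≤ 1 := mul_le_one₀ hε1 hβ0.le hβ1
  have hb1 : 1 ≤ b := hB.1
  have hb0 : 0 < b := by linarith
  set d := dd (ε * β) n with hd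
  have hd0 : 0 < d := dd_pos hεβ0 n
  set K : Set E := {y | ‖y‖ + ℓ y ≤ 1} with hK
  have hK2 : ∀ x ∈ K, ‖x‖ ≤ 2 := by
    intro x hx
    have h1 : ‖x‖ + ℓ x ≤ 1 := hx
    have h2 := (abs_le.mp (hℓ x)).1
    have h3 := norm_nonneg x
    nlinarith
  obtain ⟨Y, hY1, hY2, hY3⟩ := exists_net K hK2 (δ := d / 3) (by positivity)
  have h0K : (0 : E) ∈ K := by simp [hK]
  obtain ⟨y₀, hy₀, _⟩ := hY2 0 h0K
  have hYne : Nonempty (Fin Y.card) := ⟨⟨0, Finset.card_pos.mpr ⟨y₀, hy₀⟩⟩⟩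
  set y : Fin Y.card → E := fun j => (Y.equivFin.symm j : E) with hy
  have hyY : ∀ j, y j ∈ Y := fun j => (Y.equivFin.symm j).2
  set A : E → Set (Fin Y.card) := fun x => {j | ‖y j - x‖ + ℓ (y j - x) ≤ 1 - d} with hA
  have hp0 : 0 < pp β b n := by unfold pp; positivity
  have hp1 : pp β b n ≤ 1 := by
    rw [pp, div_le_one (by positivity)]
    have h1 : 1 ≤ b ^ n := one_le_pow₀ hb1
    have h2 : (0 : ℝ) ≤ n := Nat.cast_nonneg n
    have h3 : (1 : ℝ) ≤ 23 * ((n : ℝ) + 1) ^ 2 := by nlinarith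
    calc β ≤ 1 := hβ1
      _ = 1 * 1 := by ring
      _ ≤ 23 * ((n : ℝ) + 1) ^ 2 * b ^ n := by gcongr
  obtain ⟨T, hT1, hT2⟩ := cover_finite A (pp β b n) hp0 hp1 (by
    intro τ hτ
    exact main_lemma hθ0 hθ1 hε0 hε1 hX hβ hβ1 hB n E L ℓ hL hℓ hn.symm (Fin Y.card) y τ
      (fun j => hY1 _ (hyY j)) hτ)
  refine ⟨T, ?_, ?_⟩
  · refine hT1.trans ?_
    rw [bound, Fintype.card_fin]
    have hYc : (0 : ℝ) < Y.card := by
      exact_mod_cast Finset.card_pos.mpr ⟨y₀, hy₀⟩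
    have h1 : Real.log Y.card ≤ n * Real.log (1 + 12 / d) := by
      have h2 : (Y.card : ℝ) ≤ (1 + 12 / d) ^ n := by
        refine hY3.trans (le_of_eq ?_)
        congr 2
        field_simp
        norm_num
      calc Real.log Y.card ≤ Real.log ((1 + 12 / d) ^ n) := Real.log_le_log hYc h2
        _ = n * Real.log (1 + 12 / d) := Real.log_pow _ _
    have h3 : Real.log Y.card / pp β b n =
        23 * ((n : ℝ) + 1) ^ 2 * b ^ n / β * Real.log Y.card := by
      rw [pp]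
      field_simp
    rw [h3]
    gcongr
  · intro z hz
    obtain ⟨w, hw, hzw⟩ := hY2 z hz
    obtain ⟨j, hj⟩ : ∃ j, y j = w := ⟨Y.equivFin ⟨w, hw⟩, by simp [hy]⟩
    obtain ⟨x, hx, hjx⟩ := hT2 j
    refine ⟨x, hx, ?_⟩
    have h1 : ‖w - x‖ + ℓ (w - x) ≤ 1 - d := by rw [← hj]; exact hjx
    have h2 : z - x = (z - w) + (w - x) := by abel
    have h3 := norm_add_le (z - w) (w - x)
    have h4 := (abs_le.mp (hℓ (z - w))).2
    have h5 : (1 - β) * ‖z - w‖ ≤ (1 / 2) * ‖z - w‖ := by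
      gcongr
      linarith
    rw [h2, map_add]
    linarith

end Pool.Agent.Helper31.L1
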