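import Pool.Agent.Helper31.L1.Unif

set_option autoImplicit false
set_option linter.unusedSectionVars false

open MeasureTheory Metric Set Module

namespace Pool.Agent.Helper31.L1

/-- the proportion -/
noncomputable def pp (β b : ℝ) (m : ℕ) : ℝ := β / (23 * ((m : ℝ) + 1) ^ 2 * b ^ m)

/-- the gap -/
noncomputable def dd (ε : ℝ) : ℕ → ℝ
  | 0 => 1
  | m + 1 => ε * dd ε m / (48 * ((m : ℝ) + 2) ^ 2)

/-- `b` is the base of the exponential: the positive root of a quadratic equation -/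
def Base (θ β b : ℝ) : Prop := 1 ≤ b ∧ b = 1 + (θ + (1 - θ) / b) / β

lemma dd_pos {ε : ℝ} (hε : 0 < ε) (m : ℕ) : 0 < dd ε m := by
  induction m with
  | zero => simp [dd]
  | succ m ih => rw [dd]; positivity

lemma dd_le_one {ε : ℝ} (hε : 0 < ε) (hε1 : ε ≤ 1) (m : ℕ) : dd ε m ≤ 1 := by
  induction m with
  | zero => simp [dd]
  | succ m ih =>
    rw [dd, div_le_one (by positivity)]
    have h1 : ε * dd ε m ≤ 1 := mul_le_one₀ hε1 (dd_pos hε m).le ih
    have h2 : (0 : ℝ) ≤ m := Nat.cast_nonneg m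
    nlinarith

/-- the numerical heart -/
lemma step_num {θ β b : ℝ} (hθ0 : 0 ≤ θ) (hθ1 : θ ≤ 1) (hβ0 : 0 < β) (hB : Base θ β b) (m : ℕ)
    (σ : ℝ) (hσ0 : 0 ≤ σ) (hσ1 : σ ≤ 1) :
    pp β b (m + 1) ≤ (1 / ((m : ℝ) + 2)) *
        (β / (3 * Real.exp 2 * (((m + 1 : ℕ) : ℝ) + 1)) *
          (β / (β + (1 - (1 - θ) * σ))) ^ (m + 1)) +
      (1 - 1 / ((m : ℝ) + 2)) * (pp β b m * (1 - σ)) := by
  obtain ⟨hb1, hb⟩ := hB
  have hb0 : 0 < b := by linarith
  have hm0 : (0 : ℝ) ≤ m := Nat.cast_nonneg m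
  have he : 3 * Real.exp 2 ≤ 23 := by
    have h := Real.exp_one_lt_d9
    have h2 : Real.exp 2 = Real.exp 1 * Real.exp 1 := by rw [← Real.exp_add]; norm_num
    rw [h2]
    nlinarith [Real.exp_pos 1]
  have hw0 : 0 ≤ 1 - (1 - θ) * σ := by nlinarith
  have hw : 0 ≤ 1 - 1 / ((m : ℝ) + 2) := by
    rw [sub_nonneg, div_le_one (by positivity)]
    linarith
  have hppm : 0 ≤ pp β b m := by unfold pp; positivity
  rcases le_or_gt (1 - 1 / b) σ with hc | hc
  · have h1 : 1 / b ≤ β / (β + (1 - (1 - θ) * σ)) := by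
      rw [div_le_div_iff₀ hb0 (by positivity), one_mul]
      have h2 : (1 - θ) * (1 - 1 / b) ≤ (1 - θ) * σ := by
        apply mul_le_mul_of_nonneg_left hc (by linarith)
      have h3 : β * b = β + (θ + (1 - θ) / b) := by
        have h5 : β * b = β * (1 + (θ + (1 - θ) / b) / β) := congrArg (fun z => β * z) hb
        rw [h5, mul_add, mul_one, mul_div_cancel₀ _ hβ0.ne']
      have h4 : (1 - θ) / b = (1 - θ) * (1 / b) := by ring
      rw [h4] at h3
      linarith
    have h2 : 1 / b ^ (m + 1) ≤ (β / (β + (1 - (1 - θ) * σ))) ^ (m + 1) := by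
      rw [← one_div_pow]
      exact pow_le_pow_left₀ (by positivity) h1 _
    have h3 : pp β b (m + 1) ≤ (1 / ((m : ℝ) + 2)) *
        (β / (3 * Real.exp 2 * (((m + 1 : ℕ) : ℝ) + 1)) *
          (β / (β + (1 - (1 - θ) * σ))) ^ (m + 1)) := by
      calc pp β b (m + 1) = (1 / ((m : ℝ) + 2)) * (β / (23 * (((m + 1 : ℕ) : ℝ) + 1)) *
            (1 / b ^ (m + 1))) := by
            rw [pp]
            push_cast
            field_simp
            ring
        _ ≤ (1 / ((m : ℝ) + 2)) * (β / (3 * Real.exp 2 * (((m + 1 : ℕ) : ℝ) + 1)) *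
            (1 / b ^ (m + 1))) := by gcongr
        _ ≤ _ := by gcongr
    have h4 : 0 ≤ (1 - 1 / ((m : ℝ) + 2)) * (pp β b m * (1 - σ)) :=
      mul_nonneg hw (mul_nonneg hppm (by linarith))
    linarith
  · have h1 : 1 / b ≤ 1 - σ := by linarith
    have h2 : pp β b (m + 1) ≤ (1 - 1 / ((m : ℝ) + 2)) * (pp β b m * (1 / b)) := by
      have e : (1 - 1 / ((m : ℝ) + 2)) * (pp β b m * (1 / b)) =
          β / (23 * (((m : ℝ) + 1) * ((m : ℝ) + 2)) * b ^ (m + 1)) := by
        rw [pp]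
        field_simp
        ring
      rw [e, pp]
      push_cast
      refine div_le_div_of_nonneg_left hβ0.le (by positivity) ?_
      gcongr
      nlinarith
    have h3 : (1 - 1 / ((m : ℝ) + 2)) * (pp β b m * (1 / b)) ≤
        (1 - 1 / ((m : ℝ) + 2)) * (pp β b m * (1 - σ)) := by gcongr
    have h4 : 0 ≤ (1 / ((m : ℝ) + 2)) *
        (β / (3 * Real.exp 2 * (((m + 1 : ℕ) : ℝ) + 1)) *
          (β / (β + (1 - (1 - θ) * σ))) ^ (m + 1)) := by
      positivity
    linarith

universe u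

variable {Ω : Type*} [MeasurableSpace Ω] {X : Type*} [NormedAddCommGroup X] [NormedSpace ℝ X]
variable {ν : Measure Ω} [SFinite ν]

/-- a hyperplane in which all points with a small image lie approximately -/
lemma hyperplane {E : Type*} [NormedAddCommGroup E] [NormedSpace ℝ E] [FiniteDimensional ℝ E]
    [MeasurableSpace E] [BorelSpace E] (L : E →ₗ[ℝ] X) (ha : 0 < avg L) {m : ℕ}
    (hm : finrank ℝ E = m + 1) (ℓ : E →ₗ[ℝ] ℝ) {β : ℝ} (hβ : 1 / 2 ≤ β)
    (hℓ : ∀ x, |ℓ x| ≤ (1 - β) * ‖x‖) :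
    ∃ W : Submodule ℝ E, finrank ℝ W = m ∧ ∀ κ : ℝ, 0 < κ → ∀ y : E, ‖y‖ + ℓ y ≤ 1 →
      ‖L y‖ < κ * avg L → ∃ z ∈ W, ‖z‖ + ℓ z ≤ 1 ∧ ‖y - z‖ + ℓ (y - z) ≤ 3 * κ := by
  have hsub : ∀ x z : E, ‖x + z‖ + ℓ (x + z) ≤ (‖x‖ + ℓ x) + (‖z‖ + ℓ z) := by
    intro x z
    have := norm_add_le x z
    rw [map_add]
    linarith
  have hpos : ∀ x : E, 0 ≤ ‖x‖ + ℓ x := by
    intro x
    have h1 := (abs_le.mp (hℓ x)).1
    have h2 := norm_nonneg x
    nlinarith
  have hup : ∀ x : E, ‖x‖ + ℓ x ≤ 3 / 2 * ‖x‖ := by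
    intro x
    have h1 := (abs_le.mp (hℓ x)).2
    have h2 := norm_nonneg x
    nlinarith
  have hcomp : IsCompact (closedBall (0 : E) 1) := isCompact_closedBall 0 1
  obtain ⟨e, he, hmax⟩ := hcomp.exists_isMaxOn ⟨0, by simp⟩ (cont_L L).continuousOn
  have he1 : ‖e‖ ≤ 1 := by simpa using he
  have hav : avg L ≤ ‖L e‖ := by
    have h1 : avg L ≤ ∫ _, ‖L e‖ ∂(unif E) := by
      refine integral_mono_ae (int_L L) (integrable_const _) ?_
      filter_upwards [unif_ball] with k hk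
      exact hmax (by simpa using hk)
    simpa using h1
  have hLe : 0 < ‖L e‖ := ha.trans_le hav
  have hLe0 : L e ≠ 0 := norm_pos_iff.mp hLe
  obtain ⟨g, hg1, hg2⟩ := exists_dual_vector ℝ (L e) hLe.ne'
  set w : E →ₗ[ℝ] ℝ := (g : X →ₗ[ℝ] ℝ).comp L with hw
  have hwe : w e = ‖L e‖ := by simpa [hw] using hg2
  have hwle : ∀ y, |w y| ≤ ‖L y‖ := by
    intro y
    have := g.le_opNorm (L y)
    rw [hg1, one_mul] at this
    simpa [hw] using this
  have hw0 : w ≠ 0 := by
    intro h0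
    rw [h0] at hwe
    rw [← hwe] at hLe
    simp at hLe
  refine ⟨LinearMap.ker w, ?_, ?_⟩
  · have h1 := LinearMap.finrank_range_add_finrank_ker w
    have h2 : finrank ℝ (LinearMap.range w) = 1 := by
      have : LinearMap.range w = ⊤ := by
        rw [LinearMap.range_eq_top]
        exact LinearMap.surjective_of_ne_zero hw0
      rw [this, finrank_top]
      simp
    omega
  · intro κ hκ y hy hLy
    set c : ℝ := w y / w e with hc
    have hc1 : |c| ≤ κ := by
      rw [hc, abs_div, hwe, abs_of_pos hLe, div_le_iff₀ hLe]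
      calc |w y| ≤ ‖L y‖ := hwle y
        _ ≤ κ * avg L := hLy.le
        _ ≤ κ * ‖L e‖ := by gcongr
    set z' : E := y - c • e with hz'
    have hce : ‖c • e‖ ≤ κ := by
      rw [norm_smul, Real.norm_eq_abs]
      calc |c| * ‖e‖ ≤ κ * 1 := by gcongr
        _ = κ := mul_one κ
    have hz'1 : ‖z'‖ + ℓ z' ≤ 1 + 3 / 2 * κ := by
      have h1 := hsub y (-(c • e))
      have h2 := hup (-(c • e))
      rw [norm_neg] at h2 h1
      rw [hz', sub_eq_add_neg]
      linarith
    have hwz' : w z' = 0 := by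
      have hne : w e ≠ 0 := by rw [hwe]; exact hLe.ne'
      simp only [hz', map_sub, map_smul, smul_eq_mul, hc]
      field_simp
      ring
    set D : ℝ := 1 + 3 / 2 * κ with hD
    have hD0 : 0 < D := by positivity
    refine ⟨D⁻¹ • z', ?_, ?_, ?_⟩
    · rw [LinearMap.mem_ker, map_smul, hwz', smul_zero]
    · rw [norm_smul, Real.norm_of_nonneg (by positivity), map_smul, smul_eq_mul, ← mul_add,
        inv_mul_le_iff₀ hD0]
      linarith
    · have hk1 : 0 ≤ 3 / 2 * κ * D⁻¹ := by positivity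
      have e1 : y - D⁻¹ • z' = c • e + (3 / 2 * κ * D⁻¹) • z' := by
        have : 3 / 2 * κ * D⁻¹ = 1 - D⁻¹ := by
          rw [hD]
          field_simp
          ring
        rw [this, hz']
        module
      rw [e1]
      have h1 := hsub (c • e) ((3 / 2 * κ * D⁻¹) • z')
      have h2 := hup (c • e)
      have h3 : ‖(3 / 2 * κ * D⁻¹) • z'‖ + ℓ ((3 / 2 * κ * D⁻¹) • z') ≤ 3 / 2 * κ := by
        rw [norm_smul, Real.norm_of_nonneg hk1, map_smul, smul_eq_mul, ← mul_add]
        calc 3 / 2 * κ * D⁻¹ * (‖z'‖ + ℓ z') ≤ 3 / 2 * κ * D⁻¹ * D := by gcongr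
          _ = 3 / 2 * κ := by field_simp
      linarith

/-- **Main lemma.** -/
theorem main_lemma {θ ε β b : ℝ} (hθ0 : 0 ≤ θ) (hθ1 : θ ≤ 1) (hε0 : 0 < ε) (hε1 : ε ≤ 1)
    (hX : Flat X θ ε) (hβ : 1 / 2 ≤ β) (hβ1 : β ≤ 1) (hB : Base θ β b) (m : ℕ) :
    ∀ (E : Type u) [NormedAddCommGroup E] [NormedSpace ℝ E] [FiniteDimensional ℝ E]
      (L : Ω → E →ₗ[ℝ] X) (ℓ : E →ₗ[ℝ] ℝ), Rep ν L → (∀ x, |ℓ x| ≤ (1 - β) * ‖x‖) →
      finrank ℝ E = m →
      ∀ (J : Type) [Fintype J] (y : J → E) (τ : J → ℝ), (∀ j, ‖y j‖ + ℓ (y j) ≤ 1) →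
        (∀ j, 0 ≤ τ j) →
        ∃ x : E, pp β b m * ∑ j, τ j ≤
          ∑ j, Set.indicator {j | ‖y j - x‖ + ℓ (y j - x) ≤ 1 - dd (ε * β) m} τ j := by
  have hβ0 : 0 < β := by linarith
  have hεβ0 : 0 < ε * β := by positivity
  have hεβ1 : ε * β ≤ 1 := mul_le_one₀ hε1 hβ0.le hβ1
  have hb1 : 1 ≤ b := hB.1
  induction m with
  | zero =>
    intro E _ _ _ L ℓ hL hℓ hfin J _ y τ hy hτ
    have hsub : Subsingleton E := Module.finrank_zero_iff.mp hfin
    refine ⟨0, ?_⟩
    have h1 : ∀ j, Set.indicator {j | ‖y j - 0‖ + ℓ (y j - 0) ≤ 1 - dd (ε * β) 0} τ j = τ j := by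
      intro j
      rw [Set.indicator_of_mem]
      have : y j = 0 := Subsingleton.elim _ _
      simp [dd, this]
    rw [Finset.sum_congr rfl fun j _ => h1 j]
    have h2 : 0 ≤ ∑ j, τ j := Finset.sum_nonneg fun j _ => hτ j
    have h3 : pp β b 0 ≤ 1 := by
      rw [pp, div_le_one (by positivity)]
      norm_num
      linarith
    nlinarith
  | succ m ih =>
    intro E _ _ _ L ℓ hL hℓ hfin J _ y τ hy hτ
    let _ : MeasurableSpace E := borel E
    have : BorelSpace E := ⟨rfl⟩
    set κ : ℝ := dd (ε * β) m / 4 with hκ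
    have hdm := dd_pos hεβ0 m
    have hdm1 := dd_le_one hεβ0 hεβ1 m
    have hκ0 : 0 < κ := by positivity
    have hκ1 : κ ≤ 1 := by rw [hκ]; linarith
    set r : ℝ := ε * κ / (12 * (finrank ℝ E + 1)) with hr
    have hδ : dd (ε * β) (m + 1) = r * β / (finrank ℝ E + 1) := by
      rw [dd, hr, hκ, hfin]
      push_cast
      field_simp
      ring
    have hmpos : 0 < finrank ℝ E := by omega
    set M := ∫ ω, avg (L ω) ∂ν with hM
    have hMtot : M = ∫ k, ‖k‖ ∂(unif E) := hL.avg_total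
    have hMpos : 0 < M := by rw [hMtot]; exact unif_norm_pos hmpos
    set S : J → Set Ω := fun j => {ω | κ * avg (L ω) ≤ ‖L ω (y j)‖} with hS
    have hSm : ∀ j, MeasurableSet (S j) := fun j =>
      measurableSet_le (hL.avg_meas.const_mul κ) (hL.meas (y j)).norm.measurable
    set σ : J → ℝ := fun j => (∫ ω in S j, avg (L ω) ∂ν) / M with hσ
    have hsplit : ∀ j, ∫ ω in S j, avg (L ω) ∂ν + ∫ ω in (S j)ᶜ, avg (L ω) ∂ν = M := fun j =>
      integral_add_compl (hSm j) hL.avg_int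
    have hS0 : ∀ j, 0 ≤ ∫ ω in S j, avg (L ω) ∂ν := fun j => integral_nonneg fun ω => avg_nonneg _
    have hSc0 : ∀ j, 0 ≤ ∫ ω in (S j)ᶜ, avg (L ω) ∂ν := fun j =>
      integral_nonneg fun ω => avg_nonneg _
    have hσ0 : ∀ j, 0 ≤ σ j := fun j => div_nonneg (hS0 j) hMpos.le
    have hσ1 : ∀ j, σ j ≤ 1 := fun j => by
      rw [hσ]
      simp only
      rw [div_le_one hMpos]
      linarith [hsplit j, hSc0 j]
    -- the uniform part
    obtain ⟨xA, hxA⟩ : ∃ x : E, ∑ j, τ j * (β / (3 * Real.exp 2 * (((m + 1 : ℕ) : ℝ) + 1)) *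
        (β / (β + (1 - (1 - θ) * σ j))) ^ (m + 1)) ≤
        ∑ j, Set.indicator {j | ‖y j - x‖ + ℓ (y j - x) ≤ 1 - dd (ε * β) (m + 1)} τ j := by
      set A : J → Set E := fun j => {x | ‖y j - r • x‖ + ℓ (y j - r • x) ≤ 1 - dd (ε * β) (m + 1)} with hA
      have hcℓ : Continuous ℓ := LinearMap.continuous_of_finiteDimensional ℓ
      have hAm : ∀ j, MeasurableSet (A j) := fun j =>
        (isClosed_le (by fun_prop) continuous_const).measurableSet
      have h1 : ∀ j, β / (3 * Real.exp 2 * (((m + 1 : ℕ) : ℝ) + 1)) *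
          (β / (β + (1 - (1 - θ) * σ j))) ^ (m + 1) ≤ (unif E).real (A j) := by
        intro j
        have := hL.unif_part hθ0 hθ1 hε0 hε1 hX hmpos ℓ hβ hβ1 hℓ hκ0 hκ1 (y j) (hy j) (S j)
          (hSm j)
          (fun ω hω => hω) ((1 - θ) * σ j) (by
            rw [hσ]
            simp only
            rw [← hM]
            field_simp) r hr
        rw [← hδ, hfin] at this
        exact this
      set F : E → ℝ := fun x => ∑ j, Set.indicator (A j) (fun _ => τ j) x with hF
      have hFi : ∀ j, Integrable (Set.indicator (A j) (fun _ : E => τ j)) (unif E) := fun j =>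
        (integrable_const _).indicator (hAm j)
      obtain ⟨x, hx⟩ := exists_integral_le (μ := unif E) (f := F)
        (integrable_finsetSum _ fun j _ => hFi j)
      refine ⟨r • x, ?_⟩
      have h2 : ∫ x, F x ∂(unif E) = ∑ j, τ j * (unif E).real (A j) := by
        rw [hF, integral_finsetSum _ fun j _ => hFi j]
        refine Finset.sum_congr rfl fun j _ => ?_
        rw [integral_indicator_const _ (hAm j), smul_eq_mul, mul_comm]
      calc ∑ j, τ j * (β / (3 * Real.exp 2 * (((m + 1 : ℕ) : ℝ) + 1)) *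
            (β / (β + (1 - (1 - θ) * σ j))) ^ (m + 1)) ≤ ∑ j, τ j * (unif E).real (A j) :=
            Finset.sum_le_sum fun j _ => mul_le_mul_of_nonneg_left (h1 j) (hτ j)
        _ = ∫ x, F x ∂(unif E) := h2.symm
        _ ≤ F x := hx
        _ = ∑ j, Set.indicator {j | ‖y j - r • x‖ + ℓ (y j - r • x) ≤ 1 - dd (ε * β) (m + 1)} τ j := by
            refine Finset.sum_congr rfl fun j _ => ?_
            by_cases hj : ‖y j - r • x‖ + ℓ (y j - r • x) ≤ 1 - dd (ε * β) (m + 1)
            · rw [Set.indicator_of_mem (show x ∈ A j from hj),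
                Set.indicator_of_mem (show j ∈ {j | ‖y j - r • x‖ + ℓ (y j - r • x) ≤ 1 - dd (ε * β) (m + 1)} from hj)]
            · rw [Set.indicator_of_notMem (show x ∉ A j from hj),
                Set.indicator_of_notMem (show j ∉ {j | ‖y j - r • x‖ + ℓ (y j - r • x) ≤ 1 - dd (ε * β) (m + 1)} from hj)]
    -- the choice of the hyperplane
    obtain ⟨ω, hω0, hω⟩ : ∃ ω, 0 < avg (L ω) ∧
        ∑ j, τ j * (1 - σ j) ≤ ∑ j, Set.indicator {j | ω ∉ S j} τ j := by
      by_contra hcon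
      push Not at hcon
      set R := ∑ j, τ j * (1 - σ j) with hR
      set h : Ω → ℝ := fun ω => ∑ j, Set.indicator (S j)ᶜ (fun ω => τ j * avg (L ω)) ω with hh
      have hhi : ∀ j, Integrable (Set.indicator (S j)ᶜ (fun ω => τ j * avg (L ω))) ν := fun j =>
        (hL.avg_int.const_mul _).indicator (hSm j).compl
      have hh2 : ∀ ω, h ω = (∑ j, Set.indicator {j | ω ∉ S j} τ j) * avg (L ω) := by
        intro ω
        rw [hh, Finset.sum_mul]
        refine Finset.sum_congr rfl fun j _ => ?_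
        by_cases hj : ω ∈ S j
        · rw [Set.indicator_of_notMem (by simpa using hj), Set.indicator_of_notMem (by simpa using hj),
            zero_mul]
        · rw [Set.indicator_of_mem (by simpa using hj), Set.indicator_of_mem (by simpa using hj)]
      have hI : ∫ ω, h ω ∂ν = R * M := by
        rw [hh, integral_finsetSum _ fun j _ => hhi j, hR, Finset.sum_mul]
        refine Finset.sum_congr rfl fun j _ => ?_
        rw [integral_indicator (hSm j).compl, integral_const_mul]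
        have := hsplit j
        have e : ∫ ω in (S j)ᶜ, avg (L ω) ∂ν = (1 - σ j) * M := by
          rw [hσ]
          simp only
          field_simp
          linarith
        rw [e]
        ring
      have hd : ∀ ω, 0 ≤ R * avg (L ω) - h ω := by
        intro ω
        rw [hh2]
        rcases (avg_nonneg (L ω)).eq_or_lt with h0 | h0
        · rw [← h0]; simp
        · have := hcon ω h0
          nlinarith
      have hi2 : Integrable (fun ω => R * avg (L ω) - h ω) ν :=
        (hL.avg_int.const_mul R).sub (integrable_finsetSum _ fun j _ => hhi j)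
      have hz : ∫ ω, (R * avg (L ω) - h ω) ∂ν = 0 := by
        rw [integral_sub (hL.avg_int.const_mul R) (integrable_finsetSum _ fun j _ => hhi j),
          integral_const_mul, hI, ← hM]
        ring
      rw [integral_eq_zero_iff_of_nonneg hd hi2] at hz
      have hz2 : (fun ω => avg (L ω)) =ᵐ[ν] 0 := by
        filter_upwards [hz] with ω h1
        by_contra h2
        have h3 : 0 < avg (L ω) := lt_of_le_of_ne (avg_nonneg _) (Ne.symm h2)
        have h4 := hcon ω h3
        simp only [Pi.zero_apply] at h1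
        rw [hh2] at h1
        nlinarith
      have : M = 0 := by rw [hM, integral_congr_ae hz2]; simp
      linarith
    obtain ⟨W, hWfin, hW⟩ := hyperplane (L ω) hω0 hfin ℓ hβ hℓ
    have hz : ∀ j, ∃ z : W, ‖z‖ + (ℓ.comp W.subtype) z ≤ 1 ∧
        (ω ∉ S j → ‖y j - z‖ + ℓ (y j - z) ≤ 3 * κ) := by
      intro j
      by_cases hj : ω ∈ S j
      · exact ⟨0, by simp, fun h => absurd hj h⟩
      · have hlt : ‖L ω (y j)‖ < κ * avg (L ω) := not_le.mp hj
        obtain ⟨z, hz1, hz2, hz3⟩ := hW κ hκ0 (y j) (hy j) hlt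
        exact ⟨⟨z, hz1⟩, hz2, fun _ => hz3⟩
    choose z hz1 hz2 using hz
    obtain ⟨xB, hxB⟩ := ih W (fun ω => (L ω).comp W.subtype) (ℓ.comp W.subtype) (hL.restrict W)
      (fun x => hℓ x) hWfin J z
      (Set.indicator {j | ω ∉ S j} τ) hz1 (fun j => Set.indicator_nonneg (fun j _ => hτ j) j)
    have hκδ : dd (ε * β) (m + 1) + 3 * κ ≤ dd (ε * β) m := by
      rw [dd, hκ]
      have h1 : ε * β * dd (ε * β) m / (48 * ((m : ℝ) + 2) ^ 2) ≤ dd (ε * β) m / 4 := by
        rw [div_le_iff₀ (by positivity)]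
        have h2 : (0 : ℝ) ≤ m := Nat.cast_nonneg m
        nlinarith [mul_le_mul_of_nonneg_right hεβ1 hdm.le, mul_nonneg hdm.le h2,
          mul_nonneg hdm.le (mul_nonneg h2 h2)]
      linarith
    have hxB2 : pp β b m * ∑ j, τ j * (1 - σ j) ≤
        ∑ j, Set.indicator {j | ‖y j - xB‖ + ℓ (y j - xB) ≤ 1 - dd (ε * β) (m + 1)} τ j := by
      have hppm : 0 ≤ pp β b m := by unfold pp; positivity
      calc pp β b m * ∑ j, τ j * (1 - σ j) ≤ pp β b m * ∑ j, Set.indicator {j | ω ∉ S j} τ j := by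
            gcongr
        _ ≤ _ := hxB
        _ ≤ _ := by
            refine Finset.sum_le_sum fun j _ => ?_
            by_cases h1 : ‖z j - xB‖ + (ℓ.comp W.subtype) (z j - xB) ≤ 1 - dd (ε * β) m
            · rw [Set.indicator_of_mem (show j ∈ {j | ‖z j - xB‖ +
                (ℓ.comp W.subtype) (z j - xB) ≤ 1 - dd (ε * β) m} from h1)]
              by_cases h2 : ω ∈ S j
              · rw [Set.indicator_of_notMem (by simpa using h2)]
                exact Set.indicator_nonneg (fun j _ => hτ j) j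
              · rw [Set.indicator_of_mem (by simpa using h2), Set.indicator_of_mem]
                have h3 := hz2 j h2
                have h4 : ‖(z j : E) - xB‖ + ℓ ((z j : E) - xB) ≤ 1 - dd (ε * β) m := h1
                have h5 : y j - xB = (y j - z j) + ((z j : E) - xB) := by abel
                have h6 := norm_add_le (y j - z j : E) ((z j : E) - xB)
                show ‖y j - xB‖ + ℓ (y j - xB) ≤ 1 - dd (ε * β) (m + 1)
                rw [h5, map_add]
                linarith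
            · rw [Set.indicator_of_notMem (show j ∉ {j | ‖z j - xB‖ +
                (ℓ.comp W.subtype) (z j - xB) ≤ 1 - dd (ε * β) m} from h1)]
              exact Set.indicator_nonneg (fun j _ => hτ j) j
    -- combination
    set VA := ∑ j, Set.indicator {j | ‖y j - xA‖ + ℓ (y j - xA) ≤ 1 - dd (ε * β) (m + 1)} τ j with hVA
    set VB := ∑ j, Set.indicator {j | ‖y j - xB‖ + ℓ (y j - xB) ≤ 1 - dd (ε * β) (m + 1)} τ j with hVB
    have hw0 : 0 ≤ 1 / ((m : ℝ) + 2) := by positivity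
    have hw1 : 0 ≤ 1 - 1 / ((m : ℝ) + 2) := by
      rw [sub_nonneg, div_le_one (by positivity)]
      have : (0 : ℝ) ≤ m := Nat.cast_nonneg m
      linarith
    have hcomb : pp β b (m + 1) * ∑ j, τ j ≤
        (1 / ((m : ℝ) + 2)) * VA + (1 - 1 / ((m : ℝ) + 2)) * VB := by
      calc pp β b (m + 1) * ∑ j, τ j = ∑ j, τ j * pp β b (m + 1) := by
            rw [Finset.mul_sum]
            exact Finset.sum_congr rfl fun j _ => mul_comm _ _
        _ ≤ ∑ j, τ j * ((1 / ((m : ℝ) + 2)) *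
            (β / (3 * Real.exp 2 * (((m + 1 : ℕ) : ℝ) + 1)) *
              (β / (β + (1 - (1 - θ) * σ j))) ^ (m + 1)) +
            (1 - 1 / ((m : ℝ) + 2)) * (pp β b m * (1 - σ j))) :=
            Finset.sum_le_sum fun j _ => mul_le_mul_of_nonneg_left
              (step_num hθ0 hθ1 hβ0 hB m (σ j) (hσ0 j) (hσ1 j)) (hτ j)
        _ = (1 / ((m : ℝ) + 2)) * (∑ j, τ j * (β / (3 * Real.exp 2 * (((m + 1 : ℕ) : ℝ) + 1)) *
            (β / (β + (1 - (1 - θ) * σ j))) ^ (m + 1))) +
            (1 - 1 / ((m : ℝ) + 2)) * (pp β b m * ∑ j, τ j * (1 - σ j)) := by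
            rw [Finset.mul_sum, Finset.mul_sum, Finset.mul_sum, ← Finset.sum_add_distrib]
            refine Finset.sum_congr rfl fun j _ => ?_
            ring
        _ ≤ _ := by gcongr
    rcases le_total VA VB with hle | hle
    · refine ⟨xB, ?_⟩
      have : (1 / ((m : ℝ) + 2)) * VA + (1 - 1 / ((m : ℝ) + 2)) * VB ≤ VB := by nlinarith
      linarith
    · refine ⟨xA, ?_⟩
      have : (1 / ((m : ℝ) + 2)) * VA + (1 - 1 / ((m : ℝ) + 2)) * VB ≤ VA := by nlinarith
      linarith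

end Pool.Agent.Helper31.L1
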