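import Pool.Agent.Helper31.L1.Trans

set_option autoImplicit false

open Filter Topology

namespace Pool.Agent.Helper31.L1

lemma neg_log_dd {e : ℝ} (he : 0 < e) (n : ℕ) :
    -Real.log (dd e n) ≤ n * (Real.log 48 - Real.log e + 2 * Real.log (n + 1)) := by
  induction n with
  | zero => simp [dd]
  | succ m ih =>
    have h1 := dd_pos he m
    have h2 : (0 : ℝ) < (m : ℝ) + 2 := by positivity
    have h3 : Real.log (dd e (m + 1)) =
        Real.log e + Real.log (dd e m) - (Real.log 48 + 2 * Real.log (m + 2)) := by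
      rw [dd, Real.log_div (by positivity) (by positivity), Real.log_mul he.ne' h1.ne',
        Real.log_mul (by norm_num) (by positivity), Real.log_pow]
      push_cast
      ring
    have h4 : Real.log ((m : ℝ) + 1) ≤ Real.log (m + 2) :=
      Real.log_le_log (by positivity) (by linarith)
    have h5 : (0 : ℝ) ≤ m := by positivity
    have h6 : ((m + 1 : ℕ) : ℝ) + 1 = m + 2 := by push_cast; ring
    rw [h3, h6]
    push_cast
    nlinarith

lemma log_dd {e : ℝ} (he : 0 < e) (he1 : e ≤ 1) (n : ℕ) :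
    Real.log (1 + 12 / dd e n) ≤
      Real.log 13 + n * (Real.log 48 - Real.log e + 2 * Real.log (n + 1)) := by
  have h1 := dd_pos he n
  have h2 := dd_le_one he he1 n
  have h3 : 1 + 12 / dd e n ≤ 13 / dd e n := by
    rw [← sub_nonneg]
    have : 13 / dd e n - (1 + 12 / dd e n) = (1 - dd e n) / dd e n := by
      field_simp
      ring
    rw [this]
    exact div_nonneg (by linarith) h1.le
  calc Real.log (1 + 12 / dd e n) ≤ Real.log (13 / dd e n) :=
        Real.log_le_log (by positivity) h3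
    _ = Real.log 13 + -Real.log (dd e n) := by
        rw [Real.log_div (by norm_num) h1.ne']; ring
    _ ≤ _ := by
        gcongr
        exact neg_log_dd he n

lemma poly_lt (m : ℕ) :
    23 * ((m : ℝ) + 121) ^ 2 * (m + 120) * (3 + 4 * (m + 120) + 2 * (m + 120) * (4.8 + m / 121)) + 1
      < 1.236 ^ (m + 120) := by
  induction m with
  | zero => norm_num
  | succ m ih =>
    have hm : (0 : ℝ) ≤ m := by positivity
    push_cast
    have h1 : 23 * ((m : ℝ) + 1 + 121) ^ 2 * (m + 1 + 120) *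
        (3 + 4 * (m + 1 + 120) + 2 * (m + 1 + 120) * (4.8 + (m + 1) / 121)) + 1 ≤
        1.236 * (23 * ((m : ℝ) + 121) ^ 2 * (m + 120) *
        (3 + 4 * (m + 120) + 2 * (m + 120) * (4.8 + m / 121)) + 1) := by
      rw [← sub_nonneg]
      ring_nf
      positivity
    calc _ ≤ 1.236 * (23 * ((m : ℝ) + 121) ^ 2 * (m + 120) *
        (3 + 4 * (m + 120) + 2 * (m + 120) * (4.8 + m / 121)) + 1) := h1
      _ < 1.236 * 1.236 ^ (m + 120) := by gcongr
      _ = 1.236 ^ (m + 1 + 120) := by ring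

lemma log_succ_le (m : ℕ) : Real.log ((m : ℝ) + 121) ≤ 4.8 + m / 121 := by
  have h1 : Real.log 11 ≤ 2.4 := by
    have h2 : (11 : ℝ) ^ 5 ≤ Real.exp 1 ^ 12 := by
      calc (11 : ℝ) ^ 5 ≤ 2.7182818283 ^ 12 := by norm_num
        _ ≤ Real.exp 1 ^ 12 := by
          gcongr
          exact Real.exp_one_gt_d9.le
    have h3 := Real.log_le_log (by norm_num) h2
    rw [Real.log_pow, Real.log_pow, Real.log_exp] at h3
    push_cast at h3
    linarith
  have h2 : Real.log 121 ≤ 4.8 := by
    have : (121 : ℝ) = 11 ^ 2 := by norm_num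
    rw [this, Real.log_pow]
    push_cast
    linarith
  have h3 : (0 : ℝ) ≤ m := by positivity
  have h4 : (m : ℝ) + 121 = 121 * ((m + 121) / 121) := by field_simp
  rw [h4, Real.log_mul (by norm_num) (by positivity)]
  have h5 := Real.log_le_sub_one_of_pos (show 0 < ((m : ℝ) + 121) / 121 by positivity)
  have h6 : ((m : ℝ) + 121) / 121 - 1 = m / 121 := by field_simp; ring
  linarith

lemma golden_base : Base 0 1 Real.goldenRatio := by
  refine ⟨Real.one_lt_goldenRatio.le, ?_⟩
  have h1 := Real.goldenRatio_sq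
  have h2 := Real.goldenRatio_pos
  generalize Real.goldenRatio = φ at *
  rw [zero_add, sub_zero, div_one]
  field_simp
  linarith

/-- the golden bound -/
lemma golden_lt {n : ℕ} (hn : 120 ≤ n) : bound 1 1 Real.goldenRatio n < 2 ^ n := by
  obtain ⟨m, rfl⟩ : ∃ m, n = m + 120 := ⟨n - 120, by omega⟩
  have hφ1 : 1 ≤ Real.goldenRatio := Real.one_lt_goldenRatio.le
  have hφ0 : 0 < Real.goldenRatio := Real.goldenRatio_pos
  have hφ : Real.goldenRatio * 1.236 ≤ 2 := by
    have h1 : √5 ≤ 2.2362 := by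
      rw [Real.sqrt_le_left (by norm_num)]
      norm_num
    unfold Real.goldenRatio
    linarith
  have hm : (0 : ℝ) ≤ m := by positivity
  have hlog : Real.log (1 + 12 / dd (1 * 1) (m + 120)) ≤
      3 + 4 * (m + 120) + 2 * (m + 120) * (4.8 + m / 121) := by
    have h1 := log_dd (e := 1) (by norm_num) (by norm_num) (m + 120)
    have h2 : Real.log 13 ≤ 3 := by
      have h2 : (13 : ℝ) ≤ Real.exp 1 ^ 3 := by
        calc (13 : ℝ) ≤ 2.7182818283 ^ 3 := by norm_num
          _ ≤ Real.exp 1 ^ 3 := by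
            gcongr
            exact Real.exp_one_gt_d9.le
      have h3 := Real.log_le_log (by norm_num) h2
      rw [Real.log_pow, Real.log_exp] at h3
      push_cast at h3
      linarith
    have h3 : Real.log 48 ≤ 4 := by
      have h2 : (48 : ℝ) ≤ Real.exp 1 ^ 4 := by
        calc (48 : ℝ) ≤ 2.7182818283 ^ 4 := by norm_num
          _ ≤ Real.exp 1 ^ 4 := by
            gcongr
            exact Real.exp_one_gt_d9.le
      have h3 := Real.log_le_log (by norm_num) h2
      rw [Real.log_pow, Real.log_exp] at h3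
      push_cast at h3
      linarith
    have h4 := log_succ_le m
    have h5 : ((m + 120 : ℕ) : ℝ) + 1 = m + 121 := by push_cast; ring
    rw [h5, Real.log_one] at h1
    push_cast at h1
    rw [mul_one]
    calc Real.log (1 + 12 / dd 1 (m + 120)) ≤ _ := h1
      _ ≤ 3 + (m + 120) * (4 - 0 + 2 * (4.8 + m / 121)) := by gcongr
      _ = 3 + 4 * (m + 120) + 2 * (m + 120) * (4.8 + m / 121) := by ring
  have hlog0 : 0 ≤ Real.log (1 + 12 / dd (1 * 1) (m + 120)) := by
    apply Real.log_nonneg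
    have := dd_pos (ε := 1 * 1) (by norm_num) (m + 120)
    have : 0 ≤ 12 / dd (1 * 1) (m + 120) := by positivity
    linarith
  have h121 : ((m + 120 : ℕ) : ℝ) + 1 = m + 121 := by push_cast; ring
  rw [bound, h121]
  push_cast
  have hp := poly_lt m
  have hφn : 1 ≤ Real.goldenRatio ^ (m + 120) := one_le_pow₀ hφ1
  calc 23 * ((m : ℝ) + 121) ^ 2 * Real.goldenRatio ^ (m + 120) / 1 *
        ((m + 120) * Real.log (1 + 12 / dd (1 * 1) (m + 120))) + 1
      = Real.goldenRatio ^ (m + 120) * (23 * ((m : ℝ) + 121) ^ 2 * (m + 120) *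
        Real.log (1 + 12 / dd (1 * 1) (m + 120))) + 1 := by ring
    _ ≤ Real.goldenRatio ^ (m + 120) * (23 * ((m : ℝ) + 121) ^ 2 * (m + 120) *
        (3 + 4 * (m + 120) + 2 * (m + 120) * (4.8 + m / 121))) +
        Real.goldenRatio ^ (m + 120) * 1 := by
        gcongr
        linarith
    _ = Real.goldenRatio ^ (m + 120) * (23 * ((m : ℝ) + 121) ^ 2 * (m + 120) *
        (3 + 4 * (m + 120) + 2 * (m + 120) * (4.8 + m / 121)) + 1) := by ring
    _ < Real.goldenRatio ^ (m + 120) * 1.236 ^ (m + 120) := by gcongr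
    _ = (Real.goldenRatio * 1.236) ^ (m + 120) := by rw [mul_pow]
    _ ≤ 2 ^ (m + 120) := by gcongr

/-- the base is less than two -/
lemma exists_base {θ β : ℝ} (hθ0 : 0 ≤ θ) (hβ1 : β ≤ 1) (hβ : (1 + θ) / 2 < β) :
    ∃ b < 2, Base θ β b := by
  have hβ0 : 0 < β := by linarith
  have hθ1 : θ < 1 := by linarith
  set s := √((β + θ) ^ 2 + 4 * β * (1 - θ)) with hs
  have hd : 0 ≤ (β + θ) ^ 2 + 4 * β * (1 - θ) := by
    have : 0 ≤ 4 * β * (1 - θ) := by
      apply mul_nonneg (by positivity)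
      linarith
    positivity
  have hs2 : s ^ 2 = (β + θ) ^ 2 + 4 * β * (1 - θ) := Real.sq_sqrt hd
  have hs0 : 0 ≤ s := Real.sqrt_nonneg _
  have hs3 : s < 3 * β - θ := by
    rw [hs, Real.sqrt_lt' (by linarith)]
    nlinarith
  have hs4 : β - θ ≤ s := by
    apply Real.le_sqrt_of_sq_le
    nlinarith
  refine ⟨(β + θ + s) / (2 * β), ?_, ?_, ?_⟩
  · rw [div_lt_iff₀ (by positivity)]
    linarith
  · rw [le_div_iff₀ (by positivity)]
    linarith
  · have h1 : 0 < β + θ + s := by positivity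
    field_simp
    nlinarith

/-- eventually the bound is less than two to the power `n` -/
lemma bound_lt {ε β b : ℝ} (hε0 : 0 < ε) (hε1 : ε ≤ 1) (hβ0 : 0 < β) (hβ1 : β ≤ 1) (hb1 : 1 ≤ b)
    (hb2 : b < 2) : ∃ n₀ : ℕ, ∀ n ≥ n₀, bound ε β b n < 2 ^ n := by
  have he0 : 0 < ε * β := by positivity
  have he1 : ε * β ≤ 1 := mul_le_one₀ hε1 hβ0.le hβ1
  set C : ℝ := Real.log 13 + (Real.log 48 - Real.log (ε * β)) + 2 with hC
  have hl13 : 0 ≤ Real.log 13 := Real.log_nonneg (by norm_num)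
  have hl48 : 0 ≤ Real.log 48 := Real.log_nonneg (by norm_num)
  have hle : Real.log (ε * β) ≤ 0 := Real.log_nonpos he0.le he1
  have hC0 : 0 ≤ C := by linarith
  have hb0 : 0 < b := by linarith
  have hbd : ∀ n : ℕ, bound ε β b n ≤ (23 / β * C) * (((n + 1 : ℕ) : ℝ) ^ 5 * b ^ n) + 1 := by
    intro n
    have hn : (0 : ℝ) ≤ n := by positivity
    have h1 : n * Real.log (1 + 12 / dd (ε * β) n) ≤ C * ((n : ℝ) + 1) ^ 3 := by
      have h2 := log_dd he0 he1 n
      have h3 : Real.log ((n : ℝ) + 1) ≤ n + 1 := by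
        have := Real.log_le_sub_one_of_pos (show (0 : ℝ) < (n : ℝ) + 1 by positivity)
        linarith
      have h4 : Real.log (1 + 12 / dd (ε * β) n) ≤
          Real.log 13 + n * (Real.log 48 - Real.log (ε * β) + 2 * (n + 1)) := by
        refine h2.trans ?_
        gcongr
      calc n * Real.log (1 + 12 / dd (ε * β) n)
          ≤ n * (Real.log 13 + n * (Real.log 48 - Real.log (ε * β) + 2 * (n + 1))) := by gcongr
        _ ≤ C * ((n : ℝ) + 1) ^ 3 := by
          have h5 : 0 ≤ Real.log 48 - Real.log (ε * β) := by linarith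
          have h6 : (n : ℝ) * Real.log 13 ≤ ((n : ℝ) + 1) ^ 3 * Real.log 13 := by
            gcongr
            nlinarith [pow_nonneg hn 3, pow_nonneg hn 2]
          have h7 : (n : ℝ) * n * (Real.log 48 - Real.log (ε * β)) ≤
              ((n : ℝ) + 1) ^ 3 * (Real.log 48 - Real.log (ε * β)) := by
            gcongr
            nlinarith [pow_nonneg hn 3, pow_nonneg hn 2]
          have h8 : (n : ℝ) * n * (2 * (n + 1)) ≤ ((n : ℝ) + 1) ^ 3 * 2 := by
            nlinarith [pow_nonneg hn 3, pow_nonneg hn 2]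
          calc _ = (n : ℝ) * Real.log 13 + (n : ℝ) * n * (Real.log 48 - Real.log (ε * β)) +
                (n : ℝ) * n * (2 * (n + 1)) := by ring
            _ ≤ _ := by rw [hC]; linarith
    rw [bound]
    push_cast
    calc 23 * ((n : ℝ) + 1) ^ 2 * b ^ n / β * (n * Real.log (1 + 12 / dd (ε * β) n)) + 1
        ≤ 23 * ((n : ℝ) + 1) ^ 2 * b ^ n / β * (C * ((n : ℝ) + 1) ^ 3) + 1 := by gcongr
      _ = _ := by ring
  have hr : |b / 2| < 1 := by
    rw [abs_of_pos (by positivity)]
    linarith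
  have ht1 : Tendsto (fun n : ℕ => ((n + 1 : ℕ) : ℝ) ^ 5 * (b / 2) ^ (n + 1)) atTop (𝓝 0) :=
    (tendsto_add_atTop_iff_nat 1).mpr (tendsto_pow_const_mul_const_pow_of_abs_lt_one 5 hr)
  have ht2 : Tendsto (fun n : ℕ => (1 / 2 : ℝ) ^ n) atTop (𝓝 0) :=
    tendsto_pow_atTop_nhds_zero_of_lt_one (by norm_num) (by norm_num)
  have ht3 : Tendsto (fun n : ℕ => (23 / β * C) * (2 / b) *
      (((n + 1 : ℕ) : ℝ) ^ 5 * (b / 2) ^ (n + 1)) + (1 / 2 : ℝ) ^ n) atTop (𝓝 0) := by
    have := (ht1.const_mul ((23 / β * C) * (2 / b))).add ht2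
    simpa using this
  obtain ⟨n₀, hn₀⟩ := eventually_atTop.mp (ht3.eventually_lt_const (show (0 : ℝ) < 1 by norm_num))
  refine ⟨n₀, fun n hn => ?_⟩
  have h1 := hn₀ n hn
  have h2 : (0 : ℝ) < 2 ^ n := by positivity
  calc bound ε β b n ≤ _ := hbd n
    _ = ((23 / β * C) * (2 / b) *
      (((n + 1 : ℕ) : ℝ) ^ 5 * (b / 2) ^ (n + 1)) + (1 / 2 : ℝ) ^ n) * 2 ^ n := by
        rw [add_mul, div_pow, div_pow, one_pow]
        field_simp
        ring
    _ < 1 * 2 ^ n := by gcongr
    _ = 2 ^ n := one_mul _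

end Pool.Agent.Helper31.L1
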