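import Pool.Agent.Helper31.L1.Sup

set_option autoImplicit false
set_option linter.unusedSectionVars false

open MeasureTheory Metric Set Module

namespace Pool.Agent.Helper31.L1

/-- `ε`-locally the norm of `X` has no kinks of full size -/
def Flat (X : Type*) [NormedAddCommGroup X] (θ ε : ℝ) : Prop :=
  ∀ u h : X, ‖h‖ ≤ ε * ‖u‖ → ‖u + h‖ + ‖u - h‖ ≤ 2 * ‖u‖ + 2 * θ * ‖h‖

section
variable {Ω : Type*} [MeasurableSpace Ω] {X : Type*} [NormedAddCommGroup X] [NormedSpace ℝ X]

/-- a family of linear maps whose integrated norms are the norm of `E` -/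
structure Rep (ν : Measure Ω) {E : Type*} [NormedAddCommGroup E] [NormedSpace ℝ E]
    (L : Ω → E →ₗ[ℝ] X) : Prop where
  meas : ∀ x, StronglyMeasurable (fun ω => L ω x)
  int : ∀ x, Integrable (fun ω => L ω x) ν
  norm : ∀ x, ∫ ω, ‖L ω x‖ ∂ν = ‖x‖

lemma Rep.restrict {ν : Measure Ω} {E : Type*} [NormedAddCommGroup E] [NormedSpace ℝ E]
    {L : Ω → E →ₗ[ℝ] X} (h : Rep ν L) (W : Submodule ℝ E) :
    Rep ν (fun ω => (L ω).comp W.subtype) where
  meas x := h.meas x
  int x := h.int x
  norm x := by simpa using h.norm x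

variable {ν : Measure Ω} [SFinite ν] {E : Type*} [NormedAddCommGroup E] [NormedSpace ℝ E]
  [FiniteDimensional ℝ E] [MeasurableSpace E] [BorelSpace E] {L : Ω → E →ₗ[ℝ] X}

lemma Rep.joint (h : Rep ν L) : StronglyMeasurable (fun p : Ω × E => L p.1 p.2) := by
  set b := Module.finBasis ℝ E with hb
  have e : (fun p : Ω × E => L p.1 p.2) =
      fun p : Ω × E => ∑ i, (b.repr p.2 i) • L p.1 (b i) := by
    funext p
    conv_lhs => rw [← b.sum_repr p.2]
    rw [map_sum]
    simp
  rw [e]
  refine Finset.stronglyMeasurable_fun_sum _ fun i _ => ?_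
  refine StronglyMeasurable.smul ?_ ?_
  · have : Continuous fun x : E => b.repr x i := by
      have h1 : Continuous (b.coord i) := LinearMap.continuous_of_finiteDimensional _
      exact h1
    exact (this.stronglyMeasurable).comp_measurable measurable_snd
  · exact (h.meas (b i)).comp_measurable measurable_fst

lemma Rep.joint_norm (h : Rep ν L) {g : E → E} (hg : Continuous g) :
    Measurable (fun p : Ω × E => ‖L p.1 (g p.2)‖) := by
  have h1 : Measurable (fun p : Ω × E => (p.1, g p.2)) :=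
    measurable_fst.prodMk (hg.measurable.comp measurable_snd)
  have h2 := (h.joint.norm).measurable.comp h1
  exact h2

lemma Rep.int_prod (h : Rep ν L) (y : E) (t : ℝ) :
    Integrable (fun p : Ω × E => ‖L p.1 (y - t • p.2)‖) (ν.prod (unif E)) := by
  have hc : Continuous fun k : E => y - t • k := by fun_prop
  rw [integrable_prod_iff' (h.joint_norm hc).aestronglyMeasurable]
  refine ⟨Filter.Eventually.of_forall fun k => (h.int (y - t • k)).norm, ?_⟩
  have e : (fun k : E => ∫ ω, ‖(fun p : Ω × E => ‖L p.1 (y - t • p.2)‖) (ω, k)‖ ∂ν) =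
      fun k => ‖y - t • k‖ := by
    funext k
    simp only [norm_norm]
    exact h.norm _
  rw [e]
  refine Integrable.mono' (integrable_const (‖y‖ + |t|)) (by fun_prop) ?_
  filter_upwards [unif_ball] with k hk
  rw [Real.norm_of_nonneg (norm_nonneg _)]
  calc ‖y - t • k‖ ≤ ‖y‖ + ‖t • k‖ := norm_sub_le _ _
    _ = ‖y‖ + |t| * ‖k‖ := by rw [norm_smul, Real.norm_eq_abs]
    _ ≤ ‖y‖ + |t| * 1 := by gcongr
    _ = ‖y‖ + |t| := by ring

lemma Rep.fubini (h : Rep ν L) (y : E) (t : ℝ) :
    ∫ ω, ∫ k, ‖L ω (y - t • k)‖ ∂(unif E) ∂ν = ∫ k, ‖y - t • k‖ ∂(unif E) := by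
  rw [integral_integral_swap (h.int_prod y t)]
  exact integral_congr_ae (Filter.Eventually.of_forall fun k => h.norm _)

lemma Rep.avg_meas (h : Rep ν L) : Measurable (fun ω => avg (L ω)) := by
  have h1 : StronglyMeasurable (fun p : Ω × E => ‖L p.1 p.2‖) := h.joint.norm
  exact (StronglyMeasurable.integral_prod_right (ν := unif E)
    (f := fun ω k => ‖L ω k‖) h1).measurable

lemma Rep.avg_int (h : Rep ν L) : Integrable (fun ω => avg (L ω)) ν := by
  have h1 := (h.int_prod 0 (-1)).integral_prod_left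
  simpa [avg] using h1

lemma Rep.avg_total (h : Rep ν L) : ∫ ω, avg (L ω) ∂ν = ∫ k, ‖k‖ ∂(unif E) := by
  have h1 := h.fubini 0 (-1)
  simpa [avg] using h1

lemma unif_norm_le : ∫ k, ‖k‖ ∂(unif E) ≤ 1 := by
  have h1 : ∫ k, ‖k‖ ∂(unif E) ≤ ∫ _, (1 : ℝ) ∂(unif E) := by
    refine integral_mono_ae ?_ (integrable_const _) unif_ball
    have := int_L (E := E) (X := E) (LinearMap.id)
    simpa using this
  simpa using h1

lemma unif_norm_pos (hm : 0 < finrank ℝ E) : 0 < ∫ k, ‖k‖ ∂(unif E) := by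
  have hi : Integrable (fun k : E => ‖k‖) (unif E) := by
    have := int_L (E := E) (X := E) (LinearMap.id)
    simpa using this
  rw [integral_pos_iff_support_of_nonneg (fun _ => norm_nonneg _) hi]
  have hs : Function.support (fun k : E => ‖k‖) = {0}ᶜ := by
    ext x; simp
  rw [hs, pos_iff_ne_zero]
  intro h0
  have : Nontrivial E := Module.finrank_pos_iff.mp hm
  have h1 : (unif E) {(0 : E)} = 0 := by
    rw [unif_apply]
    have h9 : (Measure.addHaar : Measure E) ({0} ∩ closedBall 0 1) = 0 := by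
      refine measure_mono_null inter_subset_left ?_
      exact measure_singleton _
    rw [h9, mul_zero]
  have h2 := measure_add_measure_compl (μ := unif E) (measurableSet_singleton (0 : E))
  rw [h0, h1] at h2
  simp at h2

/-- the two estimates for one `ω` -/
lemma one_le (L : E →ₗ[ℝ] X) (y : E) {t : ℝ} (ht : 0 ≤ t) :
    ∫ k, ‖L (y - t • k)‖ ∂(unif E) ≤ ‖L y‖ + t * avg L := by
  have h1 : ∫ k, ‖L (y - t • k)‖ ∂(unif E) ≤ ∫ k, (‖L y‖ + t * ‖L k‖) ∂(unif E) := by
    refine integral_mono_of_nonneg (Filter.Eventually.of_forall fun _ => norm_nonneg _)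
      ((integrable_const _).add ((int_L L).const_mul t)) ?_
    refine Filter.Eventually.of_forall fun k => ?_
    simp only [map_sub, map_smul]
    calc ‖L y - t • L k‖ ≤ ‖L y‖ + ‖t • L k‖ := norm_sub_le _ _
      _ = ‖L y‖ + t * ‖L k‖ := by rw [norm_smul, Real.norm_of_nonneg ht]
  rw [integral_add (integrable_const _) ((int_L L).const_mul t), integral_const_mul] at h1
  simpa [avg] using h1

lemma int_sub (L : E →ₗ[ℝ] X) (y : E) (t : ℝ) :
    Integrable (fun k => ‖L (y - t • k)‖) (unif E) := by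
  refine Integrable.mono' ((integrable_const ‖L y‖).add ((int_L L).const_mul |t|))
    ((cont_L L).comp (by fun_prop)).aestronglyMeasurable ?_
  refine Filter.Eventually.of_forall fun k => ?_
  simp only [map_sub, map_smul, norm_norm, Pi.add_apply]
  calc ‖L y - t • L k‖ ≤ ‖L y‖ + ‖t • L k‖ := norm_sub_le _ _
    _ = ‖L y‖ + |t| * ‖L k‖ := by rw [norm_smul, Real.norm_eq_abs]

lemma flat_le {θ ε : ℝ} (hX : Flat X θ ε) (L : E →ₗ[ℝ] X) (y : E) {t : ℝ} (ht : 0 ≤ t)
    (hy : t * (6 * (finrank ℝ E + 1) * avg L) ≤ ε * ‖L y‖) :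
    ∫ k, ‖L (y - t • k)‖ ∂(unif E) ≤ ‖L y‖ + θ * (t * avg L) := by
  have hs : ∫ k, ‖L (y - t • k)‖ ∂(unif E) = ∫ k, ‖L (y + t • k)‖ ∂(unif E) := by
    have := integral_neg' (E := E) (fun k => ‖L (y + t • k)‖)
    rw [← this]
    refine integral_congr_ae (Filter.Eventually.of_forall fun k => ?_)
    simp only [smul_neg, sub_eq_add_neg]
  have hadd : Integrable (fun k => ‖L (y + t • k)‖) (unif E) := by
    have := int_sub L y (-t)
    simpa [neg_smul, sub_neg_eq_add] using this
  have h1 : ∫ k, (‖L (y + t • k)‖ + ‖L (y - t • k)‖) ∂(unif E) ≤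
      ∫ k, (2 * ‖L y‖ + 2 * θ * (t * ‖L k‖)) ∂(unif E) := by
    refine integral_mono_ae (hadd.add (int_sub L y t))
      ((integrable_const _).add (((int_L L).const_mul t).const_mul (2 * θ))) ?_
    filter_upwards [unif_ball] with k hk
    have hk2 := sup_le L hk
    have hh : ‖t • L k‖ ≤ ε * ‖L y‖ := by
      rw [norm_smul, Real.norm_of_nonneg ht]
      exact (mul_le_mul_of_nonneg_left hk2 ht).trans hy
    have := hX (L y) (t • L k) hh
    simp only [map_add, map_sub, map_smul]
    rw [norm_smul, Real.norm_of_nonneg ht] at this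
    exact this
  rw [integral_add hadd (int_sub L y t), integral_add (integrable_const _)
    (((int_L L).const_mul t).const_mul (2 * θ)), integral_const_mul, integral_const_mul, ← hs] at h1
  simp only [integral_const, probReal_univ, one_smul, integral_const_mul] at h1
  unfold avg
  linarith

/-- the integrated estimate -/
lemma Rep.key (h : Rep ν L) {θ ε : ℝ} (hX : Flat X θ ε) (y : E) {t : ℝ} (ht : 0 ≤ t) (S : Set Ω)
    (hS : MeasurableSet S)
    (hy : ∀ ω ∈ S, t * (6 * (finrank ℝ E + 1) * avg (L ω)) ≤ ε * ‖L ω y‖) :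
    ∫ k, ‖y - t • k‖ ∂(unif E) ≤
      ‖y‖ + t * (θ * (∫ ω in S, avg (L ω) ∂ν) + ∫ ω in Sᶜ, avg (L ω) ∂ν) := by
  rw [← h.fubini y t]
  have hi := h.avg_int
  have hIi : Integrable (fun ω => ∫ k, ‖L ω (y - t • k)‖ ∂(unif E)) ν :=
    (h.int_prod y t).integral_prod_left
  rw [← integral_add_compl hS hIi]
  have h1 : ∫ ω in S, ∫ k, ‖L ω (y - t • k)‖ ∂(unif E) ∂ν ≤
      ∫ ω in S, (‖L ω y‖ + θ * (t * avg (L ω))) ∂ν := by
    refine setIntegral_mono_on hIi.integrableOn ?_ hS fun ω hω => flat_le hX (L ω) y ht (hy ω hω)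
    exact ((h.int y).norm.add ((hi.const_mul t).const_mul θ)).integrableOn
  have h2 : ∫ ω in Sᶜ, ∫ k, ‖L ω (y - t • k)‖ ∂(unif E) ∂ν ≤
      ∫ ω in Sᶜ, (‖L ω y‖ + t * avg (L ω)) ∂ν := by
    refine setIntegral_mono_on hIi.integrableOn ?_ hS.compl fun ω _ => one_le (L ω) y ht
    exact ((h.int y).norm.add (hi.const_mul t)).integrableOn
  rw [integral_add (h.int y).norm.integrableOn ((hi.const_mul t).const_mul θ).integrableOn,
    integral_const_mul, integral_const_mul] at h1
  rw [integral_add (h.int y).norm.integrableOn (hi.const_mul t).integrableOn,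
    integral_const_mul] at h2
  have h3 := integral_add_compl hS (h.int y).norm
  rw [h.norm y] at h3
  nlinarith [h1, h2, h3]

end

end Pool.Agent.Helper31.L1
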