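import Pool.Agent.Helper31.L1.Ball

set_option autoImplicit false
set_option linter.unusedSectionVars false

open MeasureTheory Metric Set Module

namespace Pool.Agent.Helper31.L1

lemma pow_e (m : ℕ) : Real.exp (-1) ≤ (1 - 1 / ((m : ℝ) + 1)) ^ m := by
  rcases Nat.eq_zero_or_pos m with rfl | hm
  · simp
  have hm' : (0 : ℝ) < m := by exact_mod_cast hm
  have h1 : (1 : ℝ) + 1 / m ≤ Real.exp (1 / m) := by
    have := Real.add_one_le_exp (1 / (m : ℝ))
    linarith
  have h2 : (1 - 1 / ((m : ℝ) + 1)) = (1 + 1 / (m : ℝ))⁻¹ := by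
    field_simp
    ring
  have h3 : ((1 : ℝ) + 1 / m) ^ m ≤ Real.exp 1 := by
    calc ((1 : ℝ) + 1 / m) ^ m ≤ Real.exp (1 / m) ^ m := by gcongr
      _ = Real.exp 1 := by
        rw [← Real.exp_nat_mul]
        congr 1
        field_simp
  rw [h2, inv_pow, Real.exp_neg]
  exact inv_anti₀ (by positivity) h3

section
variable {E : Type*} [NormedAddCommGroup E] [NormedSpace ℝ E] [FiniteDimensional ℝ E]
  [MeasurableSpace E] [BorelSpace E] {X : Type*} [NormedAddCommGroup X] [NormedSpace ℝ X]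

lemma cont_L (L : E →ₗ[ℝ] X) : Continuous fun k => ‖L k‖ :=
  (LinearMap.continuous_of_finiteDimensional L).norm

lemma bdd_L (L : E →ₗ[ℝ] X) : ∃ C, ∀ k, ‖L k‖ ≤ C * ‖k‖ :=
  ⟨‖LinearMap.toContinuousLinearMap L‖, fun k =>
    (LinearMap.toContinuousLinearMap L).le_opNorm k⟩

lemma int_L (L : E →ₗ[ℝ] X) : Integrable (fun k => ‖L k‖) (unif E) := by
  obtain ⟨C, hC⟩ := bdd_L L
  refine Integrable.mono' (integrable_const |C|) (cont_L L).aestronglyMeasurable ?_
  filter_upwards [unif_ball] with k hk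
  rw [Real.norm_of_nonneg (norm_nonneg _)]
  calc ‖L k‖ ≤ C * ‖k‖ := hC k
    _ ≤ |C| * ‖k‖ := by gcongr; exact le_abs_self C
    _ ≤ |C| * 1 := by gcongr
    _ = |C| := mul_one _

/-- the average of `‖L k‖` over the unit ball -/
noncomputable def avg (L : E →ₗ[ℝ] X) : ℝ := ∫ k, ‖L k‖ ∂(unif E)

lemma avg_nonneg (L : E →ₗ[ℝ] X) : 0 ≤ avg L := integral_nonneg fun _ => norm_nonneg _

lemma sup_le (L : E →ₗ[ℝ] X) {e : E} (he : ‖e‖ ≤ 1) :
    ‖L e‖ ≤ 6 * (finrank ℝ E + 1) * avg L := by
  set m := finrank ℝ E with hm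
  set l : ℝ := 1 / ((m : ℝ) + 1) with hl
  have hl0 : 0 < l := by positivity
  have hl1 : l ≤ 1 := by
    rw [hl, div_le_one (by positivity)]
    have : (0 : ℝ) ≤ m := Nat.cast_nonneg m
    linarith
  set G : Set E := {k | ‖k‖ ≤ 1 ∧ l * ‖L e‖ ≤ ‖L (l • e + (1 - l) • k)‖} with hG
  set A : Set E := {x | l * ‖L e‖ ≤ ‖L x‖} with hA
  have h1 := unif_homothety (E := E) he hl0.le hl1 (G := G) (A := A)
    (fun k hk => by simpa using hk.1) (fun k hk => hk.2)
  rw [← hm] at h1
  have hGm : MeasurableSet G := by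
    refine IsClosed.measurableSet ?_
    have c1 : IsClosed {k : E | ‖k‖ ≤ 1} := isClosed_le continuous_norm continuous_const
    have c2 : IsClosed {k : E | l * ‖L e‖ ≤ ‖L (l • e + (1 - l) • k)‖} :=
      isClosed_le continuous_const ((cont_L L).comp (by fun_prop))
    exact c1.inter c2
  have h2 : (1 : ℝ) / 2 ≤ (unif E).real G := by
    have hneg : (unif E).real ((fun x : E => -x) ⁻¹' G) = (unif E).real G := by
      rw [measureReal_def, measureReal_def, unif_mp_neg.measure_preimage hGm.nullMeasurableSet]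
    have hun : (1 : ℝ) ≤ (unif E).real (G ∪ (fun x : E => -x) ⁻¹' G) := by
      have : (unif E).real (G ∪ (fun x : E => -x) ⁻¹' G) = 1 := by
        rw [measureReal_def, show (unif E) (G ∪ (fun x : E => -x) ⁻¹' G) = 1 from ?_]
        · simp
        rw [← mem_ae_iff_prob_eq_one (hGm.union (measurable_neg hGm))]
        filter_upwards [unif_ball] with k hk
        by_contra hcon
        simp only [mem_union, mem_preimage, not_or, hG, mem_ofPred_eq, not_and, not_le,
          norm_neg] at hcon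
        have a1 := hcon.1 hk
        have a2 := hcon.2 hk
        have a3 : ‖L (l • e + (1 - l) • k) + L (l • e + (1 - l) • -k)‖ ≤
            ‖L (l • e + (1 - l) • k)‖ + ‖L (l • e + (1 - l) • -k)‖ := norm_add_le _ _
        have a4 : L (l • e + (1 - l) • k) + L (l • e + (1 - l) • -k) = (2 * l) • L e := by
          rw [← map_add, ← map_smul]
          congr 1
          module
        rw [a4, norm_smul, Real.norm_of_nonneg (by positivity)] at a3
        linarith
      rw [this]
    have := measureReal_union_le (μ := unif E) G ((fun x : E => -x) ⁻¹' G)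
    linarith
  have h3 : l * ‖L e‖ * (unif E).real A ≤ avg L := by
    have := mul_meas_ge_le_integral_of_nonneg (μ := unif E) (f := fun k => ‖L k‖)
      (Filter.Eventually.of_forall fun _ => norm_nonneg _) (int_L L) (l * ‖L e‖)
    exact this
  have h4 : Real.exp (-1) ≤ (1 - l) ^ m := pow_e m
  have h5 : (1 : ℝ) / 6 ≤ (1 - l) ^ m / 2 := by
    have : (1 : ℝ) / 3 ≤ Real.exp (-1) := by
      rw [Real.exp_neg]
      rw [one_div]
      exact inv_anti₀ (Real.exp_pos 1) (by linarith [Real.exp_one_lt_d9])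
    linarith
  have h6 : (1 : ℝ) / 6 ≤ (unif E).real A := by
    calc (1 : ℝ) / 6 ≤ (1 - l) ^ m / 2 := h5
      _ = (1 - l) ^ m * (1 / 2) := by ring
      _ ≤ (1 - l) ^ m * (unif E).real G := by
        exact mul_le_mul_of_nonneg_left h2 ((Real.exp_pos _).le.trans h4)
      _ ≤ _ := h1
  have h7 : l * ‖L e‖ * (1 / 6) ≤ avg L := by
    refine le_trans ?_ h3
    gcongr
  have h8 : l * ‖L e‖ * (1 / 6) = ‖L e‖ / (6 * ((m : ℝ) + 1)) := by
    rw [hl]
    field_simp
  rw [h8, div_le_iff₀ (by positivity)] at h7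
  linarith

end

end Pool.Agent.Helper31.L1
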