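import Pool.Agent.Helper31.L1.Cover

set_option autoImplicit false
set_option linter.unusedSectionVars false

open MeasureTheory Metric Set Module

namespace Pool.Agent.Helper31.L1

/-- the class of a linear combination -/
lemma coeFn_comb {Ω : Type*} [MeasurableSpace Ω] {X : Type*} [NormedAddCommGroup X]
    [NormedSpace ℝ X] {ν : Measure Ω} {ι : Type*} (s : Finset ι) (c : ι → ℝ) (f : ι → Lp X 1 ν) :
    ((∑ i ∈ s, c i • f i : Lp X 1 ν) : Ω → X) =ᵐ[ν] fun ω => ∑ i ∈ s, c i • f i ω := by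
  classical
  induction s using Finset.induction_on with
  | empty =>
    simp only [Finset.sum_empty]
    exact Lp.coeFn_zero _ _ _
  | insert a s ha ih =>
    rw [Finset.sum_insert ha]
    filter_upwards [Lp.coeFn_add (c a • f a) (∑ i ∈ s, c i • f i), Lp.coeFn_smul (c a) (f a), ih]
      with ω h1 h2 h3
    rw [h1, Pi.add_apply, h2, Pi.smul_apply, h3, Finset.sum_insert ha]

/-- the covering theorem for maps into `L_1` -/
theorem cover_L1 {θ ε β b : ℝ} (hθ0 : 0 ≤ θ) (hθ1 : θ ≤ 1) (hε0 : 0 < ε) (hε1 : ε ≤ 1)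
    (hβ : 1 / 2 ≤ β) (hβ1 : β ≤ 1) (hB : Base θ β b)
    {Ω : Type*} [MeasurableSpace Ω] {X : Type*} [NormedAddCommGroup X] [NormedSpace ℝ X]
    (hX : Flat X θ ε) (ν : Measure Ω) {n : ℕ}
    (T : EuclideanSpace ℝ (Fin n) →ₗ[ℝ] Lp X 1 ν) (hT : Function.Injective T)
    (ℓ : EuclideanSpace ℝ (Fin n) →ₗ[ℝ] ℝ) (hℓ : ∀ x, |ℓ x| ≤ (1 - β) * ‖T x‖) :
    ∃ F : Finset (EuclideanSpace ℝ (Fin n)), (F.card : ℝ) ≤ bound ε β b n ∧
      ∀ y, ‖T y‖ + ℓ y ≤ 1 → ∃ x ∈ F, ‖T (y - x)‖ + ℓ (y - x) < 1 := by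
  classical
  set V := EuclideanSpace ℝ (Fin n) with hV
  set bas : Basis (Fin n) ℝ V := (EuclideanSpace.basisFun (Fin n) ℝ).toBasis with hbas
  set f : Fin n → Lp X 1 ν := fun i => T (bas i) with hf
  have hfm : ∀ i, StronglyMeasurable (f i : Ω → X) := fun i => Lp.stronglyMeasurable (f i)
  have hfi : ∀ i, Integrable (f i : Ω → X) ν := fun i => L1.integrable_coeFn (f i)
  -- a sigma-finite part of the space
  obtain ⟨t, ht, ht0, hts⟩ : ∃ t, MeasurableSet t ∧ (∀ ω ∈ tᶜ, ∑ i, ‖f i ω‖ = 0) ∧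
      SigmaFinite (ν.restrict t) := by
    have h1 : StronglyMeasurable (fun ω => ∑ i, ‖f i ω‖) :=
      Finset.stronglyMeasurable_fun_sum _ fun i _ => (hfm i).norm
    have h2 : Integrable (fun ω => ∑ i, ‖f i ω‖) ν :=
      integrable_finsetSum _ fun i _ => (hfi i).norm
    have h3 : MemLp (fun ω => ∑ i, ‖f i ω‖) 1 ν := memLp_one_iff_integrable.mpr h2
    exact (h3.finStronglyMeasurable_of_stronglyMeasurable h1 one_ne_zero
      ENNReal.one_ne_top).exists_set_sigmaFinite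
  have ht1 : ∀ ω ∉ t, ∀ i, f i ω = 0 := by
    intro ω hω i
    have h1 := ht0 ω hω
    have h2 := (Finset.sum_eq_zero_iff_of_nonneg (fun i _ => norm_nonneg (f i ω))).mp h1 i
      (Finset.mem_univ i)
    exact norm_eq_zero.mp h2
  -- the linear maps
  set L₀ : Ω → V →ₗ[ℝ] X := fun ω => bas.constr ℝ (fun i => f i ω) with hL₀
  have hL₀a : ∀ ω v, L₀ ω v = ∑ i, bas.repr v i • f i ω := by
    intro ω v
    rw [hL₀]
    exact bas.constr_apply_fintype ℝ _ v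
  have hL₀m : ∀ v, StronglyMeasurable (fun ω => L₀ ω v) := by
    intro v
    simp_rw [hL₀a]
    exact Finset.stronglyMeasurable_fun_sum _ fun i _ => (hfm i).const_smul _
  have hL₀i : ∀ v, Integrable (fun ω => L₀ ω v) ν := by
    intro v
    simp_rw [hL₀a]
    exact integrable_finsetSum _ fun i _ => (hfi i).smul _
  have hL₀T : ∀ v, (T v : Ω → X) =ᵐ[ν] fun ω => L₀ ω v := by
    intro v
    have h1 : T v = ∑ i, bas.repr v i • f i := by
      conv_lhs => rw [← bas.sum_repr v]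
      rw [map_sum]
      simp [hf]
    rw [h1]
    filter_upwards [coeFn_comb Finset.univ (fun i => bas.repr v i) f] with ω hω
    rw [hω, hL₀a]
  have hL₀n : ∀ v, ∫ ω, ‖L₀ ω v‖ ∂(ν.restrict t) = ‖T v‖ := by
    intro v
    rw [setIntegral_eq_integral_of_forall_compl_eq_zero, L1.norm_eq_integral_norm]
    · refine integral_congr_ae ?_
      filter_upwards [hL₀T v] with ω hω
      rw [hω]
    · intro ω hω
      rw [hL₀a]
      simp [ht1 ω hω]
  -- the normed space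
  set e : V ≃ₗ[ℝ] LinearMap.range T := LinearEquiv.ofInjective T hT with he
  have heT : ∀ v, (e v : Lp X 1 ν) = T v := fun v => rfl
  have heT' : ∀ y : LinearMap.range T, T (e.symm y) = y := by
    intro y
    rw [← heT, e.apply_symm_apply]
  have : FiniteDimensional ℝ (LinearMap.range T) := Module.Finite.range T
  have hfr : finrank ℝ (LinearMap.range T) = n := by
    rw [LinearMap.finrank_range_of_inj hT, finrank_euclideanSpace_fin]
  have hRep : Rep (ν.restrict t) (fun ω => (L₀ ω).comp (e.symm : LinearMap.range T →ₗ[ℝ] V)) := by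
    refine ⟨fun x => hL₀m _, fun x => (hL₀i _).restrict, fun x => ?_⟩
    have h1 := hL₀n (e.symm x)
    rw [heT'] at h1
    simpa using h1
  obtain ⟨F, hF1, hF2⟩ := cover_space hθ0 hθ1 hε0 hε1 hX hβ hβ1 hB (LinearMap.range T)
    (fun ω => (L₀ ω).comp (e.symm : LinearMap.range T →ₗ[ℝ] V))
    (ℓ.comp (e.symm : LinearMap.range T →ₗ[ℝ] V)) hRep (by
      intro x
      have h1 := hℓ (e.symm x)
      rw [heT'] at h1
      simpa using h1)
  rw [hfr] at hF1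
  refine ⟨F.image e.symm, le_trans (by exact_mod_cast Finset.card_image_le) hF1, ?_⟩
  intro y hy
  obtain ⟨x, hx, hyx⟩ := hF2 (e y) (by
    have h1 : ‖e y‖ = ‖T y‖ := by rw [← heT]; rfl
    rw [h1]
    simpa using hy)
  refine ⟨e.symm x, Finset.mem_image_of_mem _ hx, ?_⟩
  have h2 : ‖e y - x‖ = ‖T (y - e.symm x)‖ := by
    rw [map_sub, heT', ← heT]
    rfl
  rw [h2] at hyx
  have h3 : (ℓ.comp (e.symm : LinearMap.range T →ₗ[ℝ] V)) (e y - x) = ℓ (y - e.symm x) := by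
    simp
  rwa [h3] at hyx

/-- the same with translates of the interior -/
theorem cover_body {θ ε β b : ℝ} (hθ0 : 0 ≤ θ) (hθ1 : θ ≤ 1) (hε0 : 0 < ε) (hε1 : ε ≤ 1)
    (hβ : 1 / 2 ≤ β) (hβ1 : β ≤ 1) (hB : Base θ β b)
    {Ω : Type*} [MeasurableSpace Ω] {X : Type*} [NormedAddCommGroup X] [NormedSpace ℝ X]
    (hX : Flat X θ ε) (ν : Measure Ω) {n : ℕ}
    (T : EuclideanSpace ℝ (Fin n) →ₗ[ℝ] Lp X 1 ν) (hT : Function.Injective T)
    (ℓ : EuclideanSpace ℝ (Fin n) →ₗ[ℝ] ℝ) (hℓ : ∀ x, |ℓ x| ≤ (1 - β) * ‖T x‖) :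
    ∃ F : Finset (EuclideanSpace ℝ (Fin n)), (F.card : ℝ) ≤ bound ε β b n ∧
      {x | ‖T x‖ + ℓ x ≤ 1} ⊆ ⋃ t ∈ F, (fun x => t + x) '' interior {x | ‖T x‖ + ℓ x ≤ 1} := by
  obtain ⟨F, hF1, hF2⟩ := cover_L1 hθ0 hθ1 hε0 hε1 hβ hβ1 hB hX ν T hT ℓ hℓ
  refine ⟨F, hF1, fun y hy => ?_⟩
  obtain ⟨x, hx, hyx⟩ := hF2 y hy
  simp only [mem_iUnion]
  refine ⟨x, hx, y - x, ?_, by simp⟩
  have hTc : Continuous T := LinearMap.continuous_of_finiteDimensional T
  have hℓc : Continuous ℓ := LinearMap.continuous_of_finiteDimensional ℓ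
  have hopen : IsOpen {x : EuclideanSpace ℝ (Fin n) | ‖T x‖ + ℓ x < 1} :=
    isOpen_lt (by fun_prop) continuous_const
  have hsub : {x : EuclideanSpace ℝ (Fin n) | ‖T x‖ + ℓ x < 1} ⊆ {x | ‖T x‖ + ℓ x ≤ 1} :=
    fun z (hz : ‖T z‖ + ℓ z < 1) => show ‖T z‖ + ℓ z ≤ 1 from hz.le
  exact interior_maximal hsub hopen hyx

/-- the bodies are convex bodies -/
theorem body_convex {β : ℝ} (hβ : 0 < β)
    {Ω : Type*} [MeasurableSpace Ω] {X : Type*} [NormedAddCommGroup X] [NormedSpace ℝ X]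
    (ν : Measure Ω) {n : ℕ}
    (T : EuclideanSpace ℝ (Fin n) →ₗ[ℝ] Lp X 1 ν) (hT : Function.Injective T)
    (ℓ : EuclideanSpace ℝ (Fin n) →ₗ[ℝ] ℝ) (hℓ : ∀ x, |ℓ x| ≤ (1 - β) * ‖T x‖) :
    Convex ℝ {x | ‖T x‖ + ℓ x ≤ 1} ∧ IsCompact {x | ‖T x‖ + ℓ x ≤ 1} ∧
      (interior {x | ‖T x‖ + ℓ x ≤ 1}).Nonempty := by
  have hTc : Continuous T := LinearMap.continuous_of_finiteDimensional T
  have hℓc : Continuous ℓ := LinearMap.continuous_of_finiteDimensional ℓ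
  refine ⟨?_, ?_, ?_⟩
  · intro x hx y hy a c ha hc hac
    have hx' : ‖T x‖ + ℓ x ≤ 1 := hx
    have hy' : ‖T y‖ + ℓ y ≤ 1 := hy
    show ‖T (a • x + c • y)‖ + ℓ (a • x + c • y) ≤ 1
    rw [map_add, map_smul, map_smul, map_add, map_smul, map_smul]
    have h1 : ‖a • T x + c • T y‖ ≤ a * ‖T x‖ + c * ‖T y‖ := by
      refine (norm_add_le _ _).trans (le_of_eq ?_)
      rw [norm_smul, norm_smul, Real.norm_of_nonneg ha, Real.norm_of_nonneg hc]
    simp only [smul_eq_mul]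
    calc _ ≤ a * (‖T x‖ + ℓ x) + c * (‖T y‖ + ℓ y) := by linarith
      _ ≤ a * 1 + c * 1 := by gcongr
      _ = 1 := by linarith
  · refine Metric.isCompact_of_isClosed_isBounded ?_ ?_
    · exact isClosed_le (by fun_prop) continuous_const
    · obtain ⟨c, hc0, hc⟩ := T.toContinuousLinearMap.exists_antilipschitzWith
        (LinearMap.ker_eq_bot.mpr hT)
      rw [isBounded_iff_forall_norm_le]
      refine ⟨c * (1 / β), fun x hx => ?_⟩
      have hx' : ‖T x‖ + ℓ x ≤ 1 := hx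
      have h1 := (abs_le.mp (hℓ x)).1
      have h2 : ‖T x‖ ≤ 1 / β := by
        rw [le_div_iff₀ hβ]
        linarith
      have h3 : ‖x‖ ≤ c * ‖T x‖ := by
        have := hc.le_mul_dist x 0
        simpa using this
      calc ‖x‖ ≤ c * ‖T x‖ := h3
        _ ≤ c * (1 / β) := by gcongr
  · have hopen : IsOpen {x : EuclideanSpace ℝ (Fin n) | ‖T x‖ + ℓ x < 1} :=
      isOpen_lt (by fun_prop) continuous_const
    have hsub : {x : EuclideanSpace ℝ (Fin n) | ‖T x‖ + ℓ x < 1} ⊆ {x | ‖T x‖ + ℓ x ≤ 1} :=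
      fun z (hz : ‖T z‖ + ℓ z < 1) => show ‖T z‖ + ℓ z ≤ 1 from hz.le
    exact ⟨0, interior_maximal hsub hopen (by simp)⟩

end Pool.Agent.Helper31.L1
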