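import Pool.Agent.Helper31.L1.Rep

set_option autoImplicit false
set_option linter.unusedSectionVars false

open MeasureTheory Metric Set Module

namespace Pool.Agent.Helper31.L1

lemma num_bound (m : ℕ) (hm : (1 : ℝ) ≤ m) (β w η l Q : ℝ) (hβ : 0 < β) (hw : 0 ≤ w)
    (hη : η = β / ((m : ℝ) + 1)) (hη0 : 0 < η)
    (hl' : 1 - l = (β - η) / (β + w + η)) (hQ : η / 3 ≤ Q) :
    β / (3 * Real.exp 2 * (m + 1)) * (β / (β + w)) ^ m ≤ (1 - l) ^ m * Q := by
  have hp1 : β ^ m * Real.exp (-1) ≤ (β - η) ^ m := by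
    have e : β - η = β * (1 - 1 / ((m : ℝ) + 1)) := by rw [hη]; ring
    rw [e, mul_pow]
    exact mul_le_mul_of_nonneg_left (pow_e m) (by positivity)
  have hp2 : (β + w + η) ^ m ≤ (β + w) ^ m * Real.exp 1 := by
    have q1 : β + w + η ≤ (β + w) * Real.exp (1 / ((m : ℝ) + 1)) := by
      have := Real.add_one_le_exp (1 / ((m : ℝ) + 1))
      have h2 : η ≤ (β + w) * (1 / ((m : ℝ) + 1)) := by
        rw [hη, mul_one_div]
        gcongr
        linarith
      nlinarith
    have h2s : 0 ≤ (β + w) ^ m := by positivity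
    have q3 : (m : ℝ) * (1 / ((m : ℝ) + 1)) ≤ 1 := by
      rw [mul_one_div, div_le_one (by positivity)]
      linarith
    have q4 : (β + w + η) ^ m ≤ ((β + w) * Real.exp (1 / ((m : ℝ) + 1))) ^ m :=
      pow_le_pow_left₀ (by positivity) q1 m
    have q5 : ((β + w) * Real.exp (1 / ((m : ℝ) + 1))) ^ m =
        (β + w) ^ m * Real.exp (m * (1 / ((m : ℝ) + 1))) := by
      rw [mul_pow, ← Real.exp_nat_mul]
    rw [q5] at q4
    exact q4.trans (mul_le_mul_of_nonneg_left (Real.exp_le_exp.mpr q3) h2s)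
  have h2s : 0 < (β + w) ^ m := by positivity
  have h2e : 0 < (β + w + η) ^ m := by positivity
  have e0 : β / (3 * Real.exp 2 * (m + 1)) * (β / (β + w)) ^ m
      = (β ^ m * Real.exp (-1) / ((β + w) ^ m * Real.exp 1)) * (η / 3) := by
    rw [hη, Real.exp_neg, show (2 : ℝ) = 1 + 1 by norm_num, Real.exp_add, div_pow]
    have := Real.exp_pos 1
    field_simp
  have hnn : 0 ≤ (β - η) ^ m := le_trans (by positivity) hp1
  have e1 : β ^ m * Real.exp (-1) / ((β + w) ^ m * Real.exp 1) ≤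
      (β - η) ^ m / (β + w + η) ^ m :=
    div_le_div₀ hnn hp1 h2e hp2
  rw [e0, hl', div_pow]
  have e2 : 0 ≤ (β - η) ^ m / (β + w + η) ^ m := div_nonneg hnn h2e.le
  exact mul_le_mul e1 hQ (by positivity) e2

section
variable {Ω : Type*} [MeasurableSpace Ω] {X : Type*} [NormedAddCommGroup X] [NormedSpace ℝ X]
variable {ν : Measure Ω} [SFinite ν] {E : Type*} [NormedAddCommGroup E] [NormedSpace ℝ E]
  [FiniteDimensional ℝ E] [MeasurableSpace E] [BorelSpace E] {L : Ω → E →ₗ[ℝ] X}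

/-- Markov's inequality for the distance -/
lemma markov (ℓ : E →ₗ[ℝ] ℝ) {β : ℝ} (hβ : 1 / 2 ≤ β) (hℓ : ∀ x, |ℓ x| ≤ (1 - β) * ‖x‖)
    (y : E) {t w η : ℝ} (ht : 0 < t) (hw0 : 0 ≤ w) (hw : w ≤ 1) (hη : 0 < η) (hη1 : η ≤ 1 / 2)
    (hβ1 : β ≤ 1) (h : ∫ k, ‖y - t • k‖ ∂(unif E) ≤ ‖y‖ + t * w) :
    η / 3 ≤ (unif E).real {k | ‖k‖ ≤ 1 ∧
      ‖y - t • k‖ + ℓ (y - t • k) ≤ ‖y‖ + ℓ y + t * (w + η)} := by
  set D : ℝ := 2 - β with hD
  have hD1 : 1 ≤ D := by rw [hD]; linarith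
  have hD2 : D ≤ 3 / 2 := by rw [hD]; linarith
  set U : E → ℝ := fun k => (‖y - t • k‖ - (‖y‖ - D * t)) - t * ℓ k with hU
  have hi : Integrable (fun k : E => ‖y - t • k‖) (unif E) := by
    have := int_sub (LinearMap.id : E →ₗ[ℝ] E) y t
    simpa using this
  have hℓi : Integrable (fun k : E => ℓ k) (unif E) := by
    have hc : Continuous ℓ := LinearMap.continuous_of_finiteDimensional ℓ
    exact (integrable_norm_iff hc.aestronglyMeasurable).mp (int_L ℓ)
  have hℓ0 : ∫ k, ℓ k ∂(unif E) = 0 := by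
    have h1 := integral_neg' (E := E) (fun k => ℓ k)
    simp only [map_neg, integral_neg] at h1
    linarith
  have hi1 : Integrable (fun k : E => ‖y - t • k‖ - (‖y‖ - D * t)) (unif E) :=
    hi.sub (integrable_const _)
  have hiU : Integrable U (unif E) := hi1.sub (hℓi.const_mul t)
  have hU0 : 0 ≤ᵐ[unif E] U := by
    filter_upwards [unif_ball] with k hk
    have h1 : ‖y‖ - ‖t • k‖ ≤ ‖y - t • k‖ := norm_sub_norm_le _ _
    rw [norm_smul, Real.norm_of_nonneg ht.le] at h1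
    have h2 := (abs_le.mp (hℓ k)).2
    have h3 : t * ‖k‖ + t * ((1 - β) * ‖k‖) ≤ D * t := by
      have : t * ‖k‖ + t * ((1 - β) * ‖k‖) = D * t * ‖k‖ := by rw [hD]; ring
      rw [this]
      have : 0 ≤ D * t := by positivity
      nlinarith
    have h4 : t * ℓ k ≤ t * ((1 - β) * ‖k‖) := by gcongr
    simp only [hU, Pi.zero_apply]
    linarith
  have hIU : ∫ k, U k ∂(unif E) ≤ t * (w + D) := by
    have e1 : ∫ k, U k ∂(unif E) =
        ∫ k, (‖y - t • k‖ - (‖y‖ - D * t)) ∂(unif E) - ∫ k, t * ℓ k ∂(unif E) :=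
      integral_sub hi1 (hℓi.const_mul t)
    have e2 : ∫ k, (‖y - t • k‖ - (‖y‖ - D * t)) ∂(unif E) =
        ∫ k, ‖y - t • k‖ ∂(unif E) - ∫ _, (‖y‖ - D * t) ∂(unif E) :=
      integral_sub hi (integrable_const _)
    rw [e1, e2, integral_const_mul, hℓ0]
    simp
    linarith
  have hM := mul_meas_ge_le_integral_of_nonneg hU0 hiU (t * (w + D + η))
  set V : Set E := {k | t * (w + D + η) ≤ U k} with hV
  have hV1 : (unif E).real V ≤ (w + D) / (w + D + η) := by
    rw [le_div_iff₀ (by positivity)]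
    have h3 : t * (w + D + η) * (unif E).real V ≤ t * (w + D) := hM.trans hIU
    nlinarith
  have hVm : MeasurableSet V := by
    have hcℓ : Continuous ℓ := LinearMap.continuous_of_finiteDimensional ℓ
    have hc : Continuous U := by
      simp only [hU]
      fun_prop
    exact (isClosed_le continuous_const hc).measurableSet
  have h4 : (unif E).real Vᶜ = 1 - (unif E).real V := by
    rw [probReal_compl_eq_one_sub hVm]
  have h5 : (unif E).real Vᶜ ≤
      (unif E).real {k | ‖k‖ ≤ 1 ∧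
        ‖y - t • k‖ + ℓ (y - t • k) ≤ ‖y‖ + ℓ y + t * (w + η)} := by
    rw [measureReal_def, measureReal_def]
    refine ENNReal.toReal_mono (measure_ne_top _ _) (measure_mono_ae ?_)
    filter_upwards [unif_ball] with k hk hkV
    refine ⟨hk, ?_⟩
    have : ¬ (t * (w + D + η) ≤ U k) := hkV
    simp only [hU, not_le] at this
    rw [map_sub, map_smul, smul_eq_mul]
    linarith
  have h6 : η / 3 ≤ 1 - (w + D) / (w + D + η) := by
    have e : 1 - (w + D) / (w + D + η) = η / (w + D + η) := by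
      field_simp
      ring
    rw [e]
    exact div_le_div_of_nonneg_left hη.le (by positivity) (by linarith)
  linarith

lemma Rep.unif_part (h : Rep ν L) {θ ε : ℝ} (hθ0 : 0 ≤ θ) (hθ1 : θ ≤ 1) (hε0 : 0 < ε) (hε1 : ε ≤ 1)
    (hX : Flat X θ ε) (hm : 0 < finrank ℝ E) (ℓ : E →ₗ[ℝ] ℝ) {β : ℝ} (hβ : 1 / 2 ≤ β) (hβ1 : β ≤ 1)
    (hℓ : ∀ x, |ℓ x| ≤ (1 - β) * ‖x‖) {κ : ℝ} (hκ0 : 0 < κ) (hκ1 : κ ≤ 1)
    (y : E) (hy : ‖y‖ + ℓ y ≤ 1) (S : Set Ω) (hS : MeasurableSet S)
    (hSκ : ∀ ω ∈ S, κ * avg (L ω) ≤ ‖L ω y‖) (s : ℝ)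
    (hs : s * (∫ ω, avg (L ω) ∂ν) = (1 - θ) * (∫ ω in S, avg (L ω) ∂ν))
    (r : ℝ) (hr : r = ε * κ / (12 * (finrank ℝ E + 1))) :
    β / (3 * Real.exp 2 * (finrank ℝ E + 1)) * (β / (β + (1 - s))) ^ finrank ℝ E ≤
      (unif E).real {x | ‖y - r • x‖ + ℓ (y - r • x) ≤ 1 - r * β / (finrank ℝ E + 1)} := by
  set m := finrank ℝ E with hmm
  have hm1 : (1 : ℝ) ≤ m := by exact_mod_cast hm
  set M := ∫ ω, avg (L ω) ∂ν with hM
  have hMtot : M = ∫ k, ‖k‖ ∂(unif E) := h.avg_total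
  have hMpos : 0 < M := by rw [hMtot]; exact unif_norm_pos hm
  have hM1 : M ≤ 1 := by rw [hMtot]; exact unif_norm_le
  have hsum := integral_add_compl hS h.avg_int
  set aS := ∫ ω in S, avg (L ω) ∂ν with haS
  have haS0 : 0 ≤ aS := integral_nonneg fun ω => avg_nonneg _
  have haSc0 : 0 ≤ ∫ ω in Sᶜ, avg (L ω) ∂ν := integral_nonneg fun ω => avg_nonneg _
  have hs0 : 0 ≤ s := by
    by_contra hneg
    push Not at hneg
    have : s * M < 0 := mul_neg_of_neg_of_pos hneg hMpos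
    have h2 : 0 ≤ (1 - θ) * aS := mul_nonneg (by linarith) haS0
    linarith
  have hs1 : s ≤ 1 := by
    have h2 : s * M ≤ 1 * M := by
      rw [hs]
      nlinarith
    exact le_of_mul_le_mul_right h2 hMpos
  have hβ0 : 0 < β := by linarith
  set w : ℝ := 1 - s with hw
  have hw0 : 0 ≤ w := by rw [hw]; linarith
  have hw1 : w ≤ 1 := by rw [hw]; linarith
  set η : ℝ := β / ((m : ℝ) + 1) with hη
  have hη0 : 0 < η := by positivity
  have hη2 : η ≤ β / 2 := by
    rw [hη]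
    exact div_le_div_of_nonneg_left hβ0.le (by norm_num) (by linarith)
  have hr0 : 0 < r := by rw [hr]; positivity
  have hr1 : r ≤ 1 / 2 := by
    rw [hr, div_le_iff₀ (by positivity)]
    nlinarith [mul_le_one₀ hε1 hκ0.le hκ1]
  set l : ℝ := (w + 2 * η) / (β + w + η) with hl
  have hden : 0 < β + w + η := by positivity
  have hl0 : 0 ≤ l := div_nonneg (by linarith) hden.le
  have hl' : 1 - l = (β - η) / (β + w + η) := by
    rw [hl]
    field_simp
    ring
  have hl1 : 0 < 1 - l := by rw [hl']; exact div_pos (by linarith) hden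
  set q : ℝ := 1 - r * l * β with hq
  have hrlb : r * l * β ≤ r := by
    have : l * β ≤ 1 := mul_le_one₀ (by linarith) hβ0.le hβ1
    nlinarith
  have hq0 : 0 < q := by rw [hq]; linarith
  have hq1 : 1 / 2 ≤ q := by rw [hq]; linarith
  set t : ℝ := r * (1 - l) / q with ht
  have ht0 : 0 < t := by rw [ht]; positivity
  have e2 : q * t = r * (1 - l) := by
    rw [ht]; field_simp
  have ht1 : t ≤ 2 * r := by
    rw [ht, div_le_iff₀ hq0]
    nlinarith
  have ht2 : t * (6 * (m + 1)) ≤ ε * κ := by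
    have : 2 * r * (6 * (m + 1)) = ε * κ := by
      rw [hr]
      field_simp
      ring
    nlinarith
  have hkey := h.key hX y ht0.le S hS (by
    intro ω hω
    have h1 := hSκ ω hω
    have h2 := avg_nonneg (L ω)
    calc t * (6 * (↑(finrank ℝ E) + 1) * avg (L ω)) = t * (6 * (m + 1)) * avg (L ω) := by
          rw [← hmm]; ring
      _ ≤ ε * κ * avg (L ω) := by gcongr
      _ = ε * (κ * avg (L ω)) := by ring
      _ ≤ ε * ‖L ω y‖ := by gcongr)
  have hkey2 : ∫ k, ‖y - t • k‖ ∂(unif E) ≤ ‖y‖ + t * w := by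
    refine hkey.trans ?_
    have : θ * aS + ∫ ω in Sᶜ, avg (L ω) ∂ν ≤ w := by
      have e : θ * aS + ∫ ω in Sᶜ, avg (L ω) ∂ν = M * w := by
        have : ∫ ω in Sᶜ, avg (L ω) ∂ν = M - aS := by linarith
        rw [this, hw]
        linarith
      rw [e]
      nlinarith
    nlinarith
  have hmk := markov ℓ hβ hℓ y ht0 hw0 hw1 hη0 (by linarith) hβ1 hkey2
  have hby : ‖β • y‖ ≤ 1 := by
    rw [norm_smul, Real.norm_of_nonneg hβ0.le]
    have := (abs_le.mp (hℓ y)).1
    nlinarith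
  have hhom := unif_homothety (E := E) hby hl0 (by linarith)
    (G := {k | ‖k‖ ≤ 1 ∧ ‖y - t • k‖ + ℓ (y - t • k) ≤ ‖y‖ + ℓ y + t * (w + η)})
    (A := {x | ‖y - r • x‖ + ℓ (y - r • x) ≤ 1 - r * β / (m + 1)})
    (fun k hk => by simpa using hk.1) (by
      rintro k ⟨hk1, hk2⟩
      have e1 : y - r • (l • β • y + (1 - l) • k) = q • (y - t • k) := by
        rw [smul_sub, smul_smul q t, e2, hq]
        module
      rw [mem_ofPred_eq, e1, norm_smul, Real.norm_of_nonneg hq0.le, map_smul, smul_eq_mul,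
        ← mul_add]
      have e3 : l * (β + w + η) = w + 2 * η := by
        rw [hl]; field_simp
      have e4 : r * β / (m + 1) = r * η := by rw [hη]; ring
      rw [e4]
      calc q * (‖y - t • k‖ + ℓ (y - t • k)) ≤ q * (1 + t * (w + η)) :=
            mul_le_mul_of_nonneg_left (by linarith) hq0.le
        _ = q + (q * t) * (w + η) := by ring
        _ = q + r * (1 - l) * (w + η) := by rw [e2]
        _ = 1 - r * (l * (β + w + η) - (w + η)) := by rw [hq]; ring
        _ = 1 - r * η := by rw [e3]; ring)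
  rw [← hmm] at hhom
  exact le_trans (num_bound m hm1 β w η l _ hβ0 hw0 hη hη0 hl' hmk) hhom

end

end Pool.Agent.Helper31.L1
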